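import Pool.Agent.Lib.DM.IfaceE

/-!
# Theorem DM (`p = 3`, not split): the interface of parts B, R, D, E (author helper66)

Every `S_...` is a statement which is proved by ONE part and used by others. Nothing is proved here. `XOm`, `S_XOm`, `S_R1`,
`S_E10`, `S_E9`, `S_E4a`, `S_Tam`, `S_BC`, `S_Cv`, `S_Cl`, `S_Cj`, `S_HG` are in `DM/IfaceE.lean` (helper28), imported here. Only the local theory of
the framing by `1/4` and the new `Theta`; the global theory is `DS/IfaceD.lean`, `DS/Iface.lean` (`DS.S_R1`, `DS.S_E1`, ..),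
the parts O, L, B of `DN` (all `[SqN n t]`). Below, `b` is prime to `30` (`G30 b`) in part R, D, E, prime to `2` in part B.
A false or awkward statement: mail helper66 at once.
-/

set_option autoImplicit false

open scoped Pointwise Topology nonZeroDivisors
open Filter

noncomputable section

namespace Pool.Agent.DM

open Pool.Agent.MuZ Pool.Agent.FW NumberField IsDedekindDomain
open Pool.Agent.DI (io ofC io_inj exists_io io_ofC ofC_io VP MP UP TP ex)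
open Pool.Agent.DN
open Pool.Agent.DT (kap cbr)

/-! ## Part B: the framing over `ℂ` -/

/-- Constants (`b₂ = 1 - 8 c`, `b₄ = 2 c²`, `b₆ = 0`, `b₈ = - c⁴`). -/
def S_B1 : Prop :=
  ∀ (n t : ℕ) [SqN n t] (b : Ideal (OO n t)), b ≠ ⊥ → PrI b 2 →
    fr b ≠ 0 ∧ cC b ≠ 0 ∧ 1 - 16 * cC b ≠ 0 ∧ XC b (1 / 2) = 0 ∧ XC b (1 / 4) = cC b ∧
    WC b (1 / 4) = cC b ∧ XC b (3 / 4) = cC b ∧ WC b (3 / 4) = -cC b ∧
    (∀ z : ℂ, wpC b z = fr b ^ 2 * (XC b z + (1 - 8 * cC b) / 12)) ∧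
    (∀ z : ℂ, wdC b z = fr b ^ 3 * WC b z) ∧
    (LP b).g₂ = fr b ^ 4 * ((1 - 8 * cC b) ^ 2 / 12 - 4 * cC b ^ 2) ∧
    (LP b).g₃ = fr b ^ 6 * (-(1 - 8 * cC b) ^ 3 / 216 + (1 - 8 * cC b) * cC b ^ 2 / 3)

/-- The curve. -/
def S_B2 : Prop :=
  ∀ (n t : ℕ) [SqN n t] (b : Ideal (OO n t)), b ≠ ⊥ → PrI b 2 → ∀ z : ℂ, z ∉ Lam b →
    WC b z ^ 2 = 4 * XC b z ^ 3 + (1 - 8 * cC b) * XC b z ^ 2 + 4 * cC b ^ 2 * XC b z ∧
    HasDerivAt (XC b) (fr b * WC b z) z ∧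
    HasDerivAt (WC b) (fr b * (6 * XC b z ^ 2 + (1 - 8 * cC b) * XC b z + 2 * cC b ^ 2)) z

/-- The formulas of the Kummer line. -/
def S_B3 : Prop :=
  ∀ (n t : ℕ) [SqN n t] (b : Ideal (OO n t)), b ≠ ⊥ → PrI b 2 →
    (∀ z z' : ℂ, z ∉ Lam b → z' ∉ Lam b → z + z' ∉ Lam b → z - z' ∉ Lam b →
      (XC b (z + z') + XC b (z - z')) * (XC b z - XC b z') ^ 2 =
        2 * XC b z * XC b z' * (XC b z + XC b z') + (1 - 8 * cC b) * (XC b z * XC b z') +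
          2 * cC b ^ 2 * (XC b z + XC b z') ∧
      XC b (z + z') * XC b (z - z') * (XC b z - XC b z') ^ 2 = (XC b z * XC b z' - cC b ^ 2) ^ 2 ∧
      (XC b (z + z') - XC b (z - z')) * (XC b z - XC b z') ^ 2 = -(WC b z * WC b z')) ∧
    (∀ z : ℂ, 2 * z ∉ Lam b → XC b (2 * z) * WC b z ^ 2 = (XC b z ^ 2 - cC b ^ 2) ^ 2) ∧
    ∀ z : ℂ, z ∉ Lam b → z + 1 / 2 ∉ Lam b → XC b (z + 1 / 2) * XC b z = cC b ^ 2

/-- Homogeneity and conjugation. -/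
def S_B7 : Prop :=
  ∀ (n t : ℕ) [SqN n t] (b : Ideal (OO n t)), b ≠ ⊥ → PrI b 2 →
    (∀ α : OO n t, α ≠ 0 → (4 : OO n t) ∣ α - 1 →
      fr (sp α * b) = toC α * fr b ∧ cC (sp α * b) = cC b ∧
      ∀ z : ℂ, XC (sp α * b) z = XC b (toC α * z) ∧ WC (sp α * b) z = WC b (toC α * z)) ∧
    (∀ α : OO n t, α ≠ 0 → (4 : OO n t) ∣ α + 1 →
      fr (sp α * b) = -(toC α * fr b) ∧ cC (sp α * b) = cC b ∧
      ∀ z : ℂ, XC (sp α * b) z = XC b (toC α * z) ∧ WC (sp α * b) z = -WC b (toC α * z)) ∧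
    (∀ α : OO n t, α ≠ 0 → Cop α 2 → ∀ z : ℂ,
      fr (sp α * b) ^ 2 * XC (sp α * b) z =
        fr b ^ 2 * toC α ^ 2 * (XC b (toC α * z) - XC b (toC α * (1 / 2)))) ∧
    (starRingEnd ℂ) (fr b) = fr (cjI b) ∧ (starRingEnd ℂ) (cC b) = cC (cjI b) ∧
    ∀ z : ℂ, (starRingEnd ℂ) (XC b z) = XC (cjI b) ((starRingEnd ℂ) z) ∧
      (starRingEnd ℂ) (WC b z) = WC (cjI b) ((starRingEnd ℂ) z)

/-- The smoothed function `g`. -/
def S_B11 : Prop :=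
  ∀ (n t : ℕ) [SqN n t] (m b : Ideal (OO n t)), m ≠ ⊥ → b ≠ ⊥ → PrI m 2 → PrI b 2 →
    ∀ z : ℂ, z ∉ Lam (m * b) → gC m b z = ∑ u ∈ hs m b, WC b z / (XC b z - XC b u)

/-- Isogenies: the sum formulas in the coordinates `X`, `W`. -/
def S_B9 : Prop :=
  ∀ (n t : ℕ) [SqN n t] (a b : Ideal (OO n t)), a ≠ ⊥ → b ≠ ⊥ → PrI a 2 → PrI b 2 →
    ∀ R : Finset ℂ, IsSys a b R →
    (∀ z : ℂ, z ∉ Lam (a * b) → fr (a * b) ^ 2 * XC (a * b) z =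
      fr b ^ 2 * ∑ u ∈ R, (XC b (z + u) - XC b (1 / 2 + u))) ∧
    ∀ z : ℂ, z ∉ Lam (a * b) → fr (a * b) ^ 3 * WC (a * b) z = fr b ^ 3 * ∑ u ∈ R, WC b (z + u)

/-! ## Part R: algebraicity, good reduction -/

/-- Good reduction of the model `X` at all primes not above `2`; supersingular above `3`. -/
def S_R2 : Prop :=
  (∀ (n t : ℕ) [SqN n t] (Q : Ideal ZZ), Npr Q → ¬ MP Q 2 → ∀ b : Ideal (OO n t), G30 b →
    UP Q (cO b) ∧ UP Q (1 - 16 * cO b)) ∧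
  (∀ (n t : ℕ) [Nsp n t] (P : Ideal ZZ), Ab3 P → ∀ b : Ideal (OO n t), G30 b →
    MP P (cO b + 1)) ∧
  ∀ (n t : ℕ) [Ine3 n t] (P : Ideal ZZ), Ab3 P → ∀ b : Ideal (OO n t), G30 b →
    TP P 3 (1 - 8 * cO b)

/-! ## Part D: reduction -/

/-- The kernel of reduction of the model `X`, at all primes not above `2`. -/
def S_D1 : Prop :=
  ∀ (n t : ℕ) [SqN n t] (Q : Ideal ZZ), Npr Q → ¬ MP Q 2 → ∀ b : Ideal (OO n t), G30 b →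
    (∀ z z' : ℂ, IK Q b z → IK Q b z' → IK Q b (z + z')) ∧ (∀ z ∈ Lam b, IK Q b z) ∧
    (∀ (v : OO n t) (z : ℂ), IK Q b z → IK Q b (toC v * z)) ∧
    (∀ (a : Ideal (OO n t)) (z : ℂ), a ≠ ⊥ → PrI a 30 → IK Q b z → IK Q (a * b) z) ∧
    (∀ z : ℂ, IK Q b z → Qp Q b z) ∧
    (∀ z z' : ℂ, Tor n t z → ¬ IK Q b z → IK Q b z' → MP Q (xO b (z + z') - xO b z)) ∧
    (∀ z z' : ℂ, Tor n t z → Tor n t z' → ¬ IK Q b z → ¬ IK Q b z' → MP Q (xO b z - xO b z') →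
      IK Q b (z + z') ∨ IK Q b (z - z'))

/-- The primes above `3`, inert case: supersingular reduction, Kronecker's congruence, units. -/
def S_D2 : Prop :=
  ∀ (n t : ℕ) [Ine3 n t] (P : Ideal ZZ), Ab3 P → ∀ b : Ideal (OO n t), G30 b →
    (∀ (z : ℂ) (j : ℕ), (3 : ℂ) ^ j * z ∈ Lam b → IK P b z) ∧
    (∀ z : ℂ, Tor n t z → (IK P b (3 * z) ↔ IK P b z)) ∧
    (∀ z : ℂ, Tor n t z → ¬ IK P b z → MP P (xO b (3 * z) - xO b z ^ 9)) ∧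
    (∀ z : ℂ, Tor n t z → ¬ IK P b z → VP P (xO b z) ∧ VP P (vO b z)) ∧
    (∀ z : ℂ, Tor n t z → ¬ IK P b (2 * z) → UP P (vO b z)) ∧
    (∀ z : ℂ, Tor n t z → ¬ Qp P b z → ¬ IK P b z) ∧
    (∀ z z' : ℂ, Tor n t z → Tor n t z' → ¬ IK P b z → ¬ IK P b z' → ¬ Qp P b (z + z') →
      ¬ Qp P b (z - z') → UP P (xO b z - xO b z')) ∧
    ∀ a : Ideal (OO n t), a ≠ ⊥ → PrI a 30 → UP P (rO b (a * b))

/-- Theta units, at all primes. -/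
def S_D5 : Prop :=
  ∀ (n t : ℕ) [SqN n t] (m b : Ideal (OO n t)), m ≠ ⊥ → G30 b → PrI m 30 →
    ∀ Q : Ideal ZZ, Npr Q → ∀ z : ℂ, Tor n t z → (∀ u ∈ Lam (m * b), ¬ Qp Q b (z + u)) →
      UP Q (Theta m b z)

/-- Theta units: congruences, at the good primes of the model of `DN`. -/
def S_D6 : Prop :=
  ∀ (n t : ℕ) [SqN n t] (m b : Ideal (OO n t)), m ≠ ⊥ → G30 b → PrI m 30 →
    ∀ Q : Ideal ZZ, GQ n t Q → ¬ MP Q 2 → ¬ Abv Q m → ∀ z : ℂ, Tor n t z →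
    (∀ u ∈ Lam (m * b), ¬ Qp Q b (z + u)) →
    (∀ z' : ℂ, DN.IK Q b z' → MP Q (Theta m b (z + z') - Theta m b z)) ∧
    ∀ (q : Ideal (OO n t)) (l : ℕ), Deg1 q l → l.Coprime 30 → Abv Q q →
      MP Q (Theta m (q * b) z - Theta m b z ^ l)

/-- Distribution of `Theta`, up to a constant, for ideals prime to `30` and for `(3)`. -/
def S_D7 : Prop :=
  ∀ (n t : ℕ) [SqN n t] (m b : Ideal (OO n t)), m ≠ ⊥ → G30 b → PrI m 30 →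
    (∀ l : Ideal (OO n t), l ≠ ⊥ → PrI l 30 → l ⊔ m = ⊤ → ∃ C : Om, C ≠ 0 ∧
      (∀ R : Finset ℂ, IsSys l b R → ∀ z : ℂ, Tor n t z → z ∉ Lam (l * m * b) →
        ∏ v ∈ R, Theta m b (z + v) = C * Theta m (l * b) z) ∧
      ∀ (p : ℕ) (Q : Ideal ZZ), Deg1 l p → Npr Q → Abv Q l → MP Q (C - 1)) ∧
    ∃ C : Om, C ≠ 0 ∧ ∀ R : Finset ℂ, IsSys (sp 3) b R → ∀ z : ℂ, Tor n t z →
      3 * z ∉ Lam (m * b) → ∏ v ∈ R, Theta m b (z + v) = C * Theta m b (3 * z)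

/-- `Theta` is a well defined even function. -/
def S_D8 : Prop :=
  ∀ (n t : ℕ) [SqN n t] (m b : Ideal (OO n t)), m ≠ ⊥ → b ≠ ⊥ → PrI m 30 →
    (∀ S : Finset ℂ, IsHalf m b S → ∀ z : ℂ,
      ∏ u ∈ S, (wpC b u - wpC b (2 * u)) / (wpC b z - wpC b u) = ThC m b z) ∧
    (∀ z : ℂ, ThC m b (-z) = ThC m b z ∧ ∀ l ∈ Lam b, ThC m b (z + l) = ThC m b z) ∧
    (∀ (α : OO n t) (z : ℂ), α ≠ 0 → ThC m (sp α * b) z = ThC m b (toC α * z)) ∧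
    (∀ z : ℂ, z ∉ Lam (m * b) → ThC m b z ≠ 0) ∧
    (G30 b → ∀ S : Finset ℂ, IsHalf m b S → ∀ z : ℂ, Tor n t z → z ∉ Lam (m * b) →
      Theta m b z ≠ 0 ∧
      Theta m b z = ∏ u ∈ S, ((xO b u - xO b (2 * u)) * (xO b z - xO b u)⁻¹) ∧
      Theta m b z = ∏ u ∈ S, ((DN.xO b u - DN.xO b (2 * u)) * (DN.xO b z - DN.xO b u)⁻¹))

/-- `g` at the primes above `3`. -/
def S_D9 : Prop :=
  ∀ (n t : ℕ) [Ine3 n t] (P : Ideal ZZ), Ab3 P → ∀ m b : Ideal (OO n t), m ≠ ⊥ → G30 b →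
    PrI m 30 → ∀ z : ℂ, Tor n t z → (∀ u ∈ Lam (m * b), ¬ Qp P b (z + u)) →
      VP P (gO m b z) ∧ gO m b z = ∑ u ∈ hs m b, vO b z * (xO b z - xO b u)⁻¹

/-- The valuations at the points of order `3 ^ j`: `X(z + d) - X(z)` has valuation `1/(8 9^(j-1))` if `2 z` is not in the
kernel. -/
def S_D10 : Prop :=
  ∀ (n t : ℕ) [Ine3 n t] (P : Ideal ZZ), Ab3 P → ∀ b : Ideal (OO n t), G30 b → ∀ (j : ℕ) (z d : ℂ),
    Tor n t z → ¬ IK P b (2 * z) → (3 : ℂ) ^ (j + 1) * d ∈ Lam b → (3 : ℂ) ^ j * d ∉ Lam b →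
    UP P ((xO b (z + d) - xO b z) ^ (8 * 9 ^ j) / 3)

/-- `κ(b) = 1/(3 W(1/3)³)`. -/
def kp {n t : ℕ} (b : Ideal (OO n t)) : Om := 1 / (3 * vO b (1 / 3) ^ 3)

/-- The numbers `κ(b)`: their valuation is `1/8`; isogenies (relative precision `9/8`); the inertia group. -/
def S_Kp : Prop :=
  ∀ (n t : ℕ) [Ine3 n t] (P : Ideal ZZ), Ab3 P → ∀ b : Ideal (OO n t), G30 b →
    UP P (kp b / w8) ∧
    (∀ a : Ideal (OO n t), a ≠ ⊥ → PrI a 30 →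
      TP P (3 * w8 ^ 2) (kp (a * b) - rO b (a * b) ^ 9 * kp b)) ∧
    ∀ α : OO n t, (20 : OO n t) ∣ α - 1 → Cop α 3 →
      TP P (3 * w8 ^ 2) (kp (sp α * b) - zt P α * kp b)

/-! ## Part E: Galois action -/

/-- Inertia above `3` (not split), first half: the class is trivial modulo `f` (the inert case is `S_E4a` of `IfaceE`). -/
def S_E4n : Prop :=
  ∀ (n t : ℕ) [Nsp n t] (P : Ideal ZZ), Ab3 P → ∀ τ ∈ GK n t, τ ∈ P.inertia Gal(Om/ℚ) →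
    ∀ (f N : ℕ) (a : Ideal (OO n t)), Fok f → 1 ≤ N → Psi τ (f * 3 ^ N) a → Ray f a ⊤

/-- Inertia and the torsion prime to `Q`, for ALL primes `Q` (`v = 1` modulo `15` or modulo `2`). -/
def S_E4b : Prop :=
  ∀ (n t : ℕ) [SqN n t] (Q : Ideal ZZ), Npr Q → ∀ τ ∈ GK n t, τ ∈ Q.inertia Gal(Om/ℚ) →
    ∀ (v : OO n t) (b δ : Ideal (OO n t)) (N : ℕ), 0 < N → 60 ∣ N → G30 b → δ ≠ ⊥ →
      sp (N : OO n t) ≤ δ → ¬ Abv Q δ → (60 : OO n t) ∣ v - 1 → Psi τ N (sp v) →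
      ∀ z ∈ Lam (δ * b), wpC b (toC v * z) = wpC b z

end Pool.Agent.DM
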