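import Pool.Agent.Lib.DM.IfaceG
import Pool.Agent.Lib.DN.IfaceC

/-!
# Theorem DM (inert case): the interface of parts T (tower at `P`), C (theta series, hidden symmetry), V, LS, F (author helper66)

Every `S_...` is a statement which is proved by ONE part and used by others. Nothing is proved here.

`Fok f`; the smoothing ideal `m` and the ideals `b` are prime to `3 f`; the modulus of the theta series is `3 f`. `M` is a LEVEL: a
multiple of `lev f m R`, prime to `3` and congruent to `1` modulo `3`. The theta series of modulus `3 f` transform under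
`Γ_0(9 M)`, the combinations `etE` (values at `r/3`) under `Γ_0(M)`, through a representation of `SL_2(F_3)`.
`k = 1, 2, 3`, `e = 0, 1`; `χ` of conductor dividing `3 f`, of type `k - 1`; the units are weighted with `χ(c) oN(c)^e`.
-/

set_option autoImplicit false

open scoped Pointwise Topology nonZeroDivisors
open Filter

noncomputable section

namespace Pool.Agent.DM

open Pool.Agent.MuZ Pool.Agent.FW NumberField IsDedekindDomain
open Pool.Agent.DI (io ofC io_inj exists_io io_ofC ofC_io VP MP UP TP ex)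
open Pool.Agent.DN
open Pool.Agent.DT (kap cbr)

/-! ## Definitions -/

/-- The minimal level. -/
def lev {n t : ℕ} (f : ℕ) (m : Ideal (OO n t)) (R : Finset (Ideal (OO n t))) : ℕ :=
  Dk n t * f ^ 2 * (NI m * ∏ b ∈ R, NI b) ^ 3

/-- `M` is a level for `R`. -/
structure IsLv {n t : ℕ} (f : ℕ) (m : Ideal (OO n t)) (R : Finset (Ideal (OO n t))) (M : ℕ) : Prop where
  pos : 0 < M
  one : M % 3 = 1
  dvd : lev f m R ∣ M

/-- `M` is a level for `R` and for a system of representatives modulo `3 f`: then the functions `etaM (3 f) m (α b)`,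
`b ∈ R`, `α ∈ tm f`, have the level `M` (they depend only on the class of `α b` modulo `3 f`). -/
structure IsLw {n t : ℕ} (f : ℕ) (m : Ideal (OO n t)) (R : Finset (Ideal (OO n t))) (M : ℕ) : Prop where
  lv : IsLv f m R M
  ex : ∃ R2 : Finset (Ideal (OO n t)), FR f R2 ∧ IsRC (3 * f) R2 ∧ IsLv f m R2 M

/-- A system of representatives of the `v = 1` modulo `F0`, prime to `3`, modulo `F0 3^N` (`F0` prime to `3`). -/
structure IsG {n t : ℕ} (F0 N : ℕ) (A : Finset (OO n t)) : Prop where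
  mem : ∀ α ∈ A, (F0 : OO n t) ∣ α - 1 ∧ Cop α 3
  ex : ∀ v : OO n t, (F0 : OO n t) ∣ v - 1 → Cop v 3 → ∃ α ∈ A, ((F0 * 3 ^ N : ℕ) : OO n t) ∣ v - α
  uni : ∀ α ∈ A, ∀ α' ∈ A, ((F0 * 3 ^ N : ℕ) : OO n t) ∣ α - α' → α = α'

/-- `y_b(r) = (1/3) ∑ κ(α b)^k η_(α b)(r/3)`, `α ∈ tm f`: an element of the ray class field modulo `f`. -/
def yE {n t : ℕ} (f k : ℕ) (m b : Ideal (OO n t)) (r : ℚ) : Om :=
  1 / 3 * ∑ α ∈ tm n t f, kp (sp α * b) ^ k * etaM (3 * f) m (sp α * b) (r / 3)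

/-- `(1/9) (zt(w) + zt(1 + w) + zt(2 + w))²` for the exponent `k`; a unit congruent to `-1` modulo `P` for `k = 1, 3`. -/
def kH (n t : ℕ) (P : Ideal ZZ) (k : ℕ) : Om :=
  (∑ j ∈ Finset.range 3, zt P (⟨j, 1⟩ : OO n t) ^ k) ^ 2 / 9

/-- `ψ(d) = eps(d) χ(d') d'^(k-1)`, `d'` prime to `3`, `d' = d` modulo the level. -/
def psV {n t : ℕ} (k : ℕ) (χ : Ideal (OO n t) → Om) (d d' : ℤ) : Om :=
  (eps n t d : Om) * χ (sp (d' : OO n t)) * (d' : Om) ^ (k - 1)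

/-! ## Part T: the inertia group at `P` and the points of order `3^N` -/

/-- The roots of unity `zt P v`; `w8`. -/
def S_T0 : Prop :=
  w8 ^ 8 = 3 ∧ ∀ (n t : ℕ) [Ine3 n t] (P : Ideal ZZ), Ab3 P → ∀ v u : OO n t,
    (¬ Cop v 3 → zt P v = 0) ∧ (Cop v 3 → Cop u 3 →
    zt P v ^ 8 = 1 ∧ TP P 3 (zt P v - toO v) ∧ zt P (v * u) = zt P v * zt P u ∧
    ((3 : OO n t) ∣ v - u ↔ zt P v = zt P u) ∧ (zt P v ^ 4 = 1 ↔ (3 : ℤ) ∣ Nm v - 1) ∧
    (zt P v ^ 4 = -1 ↔ (3 : ℤ) ∣ Nm v + 1) ∧ ∀ σ ∈ P.inertia Gal(Om/ℚ), σ (zt P v) = zt P v)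

/-- The system `tm`. -/
def S_Tm : Prop :=
  ∀ (n t : ℕ) [Ine3 n t] (f : ℕ), Fok f → IsG f 1 (tm n t f) ∧
    (∀ i j : ℕ, i < 3 → j < 3 → (Cop (tmv n t f i j) 3 ↔ ¬ (i = 0 ∧ j = 0))) ∧
    ∀ (P : Ideal ZZ) (k : ℕ) (g : OO n t → Om), Ab3 P → 1 ≤ k →
      ∑ α ∈ tm n t f, zt P α ^ k * g α =
        ∑ i ∈ Finset.range 3, ∑ j ∈ Finset.range 3, zt P (⟨i, j⟩ : OO n t) ^ k * g (tmv n t f i j)

/-- The inertia group acts on the points of order `F0 3^N` (`Fok F0`) as the group of the `α = 1` modulo `F0`, prime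
to `3`; its action on `w8`. -/
def S_T1 : Prop :=
  ∀ (n t : ℕ) [Ine3 n t] (P : Ideal ZZ), Ab3 P →
    (∀ σ ∈ P.inertia Gal(Om/ℚ), σ ∈ GK n t) ∧
    ∀ F0 N : ℕ, Fok F0 → 1 ≤ N →
      (∀ σ ∈ P.inertia Gal(Om/ℚ), ∃ α : OO n t, (F0 : OO n t) ∣ α - 1 ∧ Cop α 3 ∧
        Psi σ (F0 * 3 ^ N) (sp α)) ∧
      (∀ α : OO n t, (F0 : OO n t) ∣ α - 1 → Cop α 3 →
        ∃ σ ∈ P.inertia Gal(Om/ℚ), Psi σ (F0 * 3 ^ N) (sp α)) ∧
      ∀ σ ∈ P.inertia Gal(Om/ℚ), ∀ α : OO n t, (F0 : OO n t) ∣ α - 1 → Cop α 3 →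
        Psi σ (F0 * 3 ^ N) (sp α) → σ w8 = zt P α * w8

/-- The trace over the inertia group modulo the inertia group of level `3^N`: `3^N` divides the trace of `w8 x`. -/
def S_T2 : Prop :=
  ∀ (n t : ℕ) [Ine3 n t] (P : Ideal ZZ), Ab3 P → ∀ (F0 N : ℕ) (A : Finset (OO n t))
    (s : OO n t → Gal(Om/ℚ)), Fok F0 → 1 ≤ N → IsG F0 N A →
    (∀ α ∈ A, s α ∈ P.inertia Gal(Om/ℚ) ∧ Psi (s α) (F0 * 3 ^ N) (sp α)) → ∀ y : Om,
    (∀ σ ∈ P.inertia Gal(Om/ℚ), Psi σ (F0 * 3 ^ N) (⊤ : Ideal (OO n t)) → σ y = y) → VP P (y / w8) →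
      TP P (3 ^ N) (∑ α ∈ A, s α y)

/-! ## Part C -/

/-- Transformation under `Γ_0(9 M)`, on the values (modulus `3 f`). -/
def S_C1 : Prop :=
  ∀ (n t : ℕ) [Ine3 n t] (f M : ℕ) (m b : Ideal (OO n t)), FM f m → FB f b → IsLv f m {b} M →
    ∀ (a b' c d : ℤ), G0 (9 * M) a b' c d → a ≠ 0 ∧ d ≠ 0 ∧ ∀ r : ℚ, r.den.Coprime M →
      (c : ℚ) * r + d ≠ 0 ∧
      etaM (3 * f) m b ((a * r + b') / (c * r + d)) =
        (eps n t d : Om) * (rO b (sp (a : OO n t) * b) / a) *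
          (etaM (3 * f) m (sp (a : OO n t) * b) r - etaM (3 * f) m (sp (a : OO n t) * b) 0) +
        etaM (3 * f) m b (b' / d)

/-- Transformation under `Γ_1(9 M)`, on the upper half plane. -/
def S_C2 : Prop :=
  ∀ (n t : ℕ) [Ine3 n t] (f M : ℕ) (m b : Ideal (OO n t)), FM f m → FB f b → IsLv f m {b} M →
    ∀ (a b' c d : ℤ), G0 (9 * M) a b' c d → (9 * M : ℤ) ∣ d - 1 → ∀ z : ℂ, 0 < z.im →
      ThM (3 * f) m b ((a * z + b') / (c * z + d)) =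
        ThM (3 * f) m b z + io (etaM (3 * f) m b (b' / d) - etaM (3 * f) m b 0)

/-- Expansions at all cusps. -/
def S_C3 : Prop :=
  ∀ (n t : ℕ) [Ine3 n t] (f M : ℕ) (m b : Ideal (OO n t)), FM f m → FB f b → IsLv f m {b} M →
    ∀ (a b' c d : ℤ), a * d - b' * c = 1 →
    ∃ (c0 : ℂ) (cf : ℕ → ℂ) (C : ℝ), (∀ j, ‖cf j‖ ≤ C * (j + 1) ^ 3) ∧ ∀ z : ℂ, 0 < z.im →
      HasSum (fun j : ℕ => cf j * ex ((j + 1) * z / (9 * M : ℕ)))
        (ThM (3 * f) m b ((a * z + b') / (c * z + d)) - c0)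

/-- The values at `c/q`, `q` prime to `N m`: the limit exists, it is algebraic; the formula for `b` prime to `3 f q`
(then `(1 + 3 f γ)/(3 f q)`, `γ ∈ O/q`, are the `z` modulo `Lam b` with `q z = 1/(3 f)`). -/
def S_C4 : Prop :=
  ∀ (n t : ℕ) [Ine3 n t] (f : ℕ) (m b : Ideal (OO n t)), FM f m → FB f b → ∀ (c : ℤ) (q : ℕ), 0 < q →
    q.Coprime (NI m) →
    Tendsto (fun y : ℝ => ThM (3 * f) m b (((c / q : ℚ) : ℂ) + y * Complex.I)) (𝓝[>] 0)
      (𝓝 (hM (3 * f) m b (c / q))) ∧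
    io (etaM (3 * f) m b (c / q)) = hM (3 * f) m b (c / q) ∧
    (PrI b q → etaM (3 * f) m b (c / q) = (1 / q : Om) *
      ∑ x ∈ Finset.range q, ∑ y ∈ Finset.range q,
        zet q ^ (c * (NI m * NI b * Nm (⟨1 + 3 * f * x, 3 * f * y⟩ : OO n t))) *
          gO m b (toC (⟨1 + 3 * f * x, 3 * f * y⟩ : OO n t) / (3 * f * q : ℕ)))

/-- Class functions, period, third of the period, complex conjugation. -/
def S_C6 : Prop :=
  ∀ (n t : ℕ) [Ine3 n t] (f : ℕ) (m b : Ideal (OO n t)), FM f m → FB f b →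
    (∀ b' : Ideal (OO n t), FB f b' → Ray (3 * f) b b' →
      (∀ z : ℂ, ThM (3 * f) m b z = ThM (3 * f) m b' z) ∧
      ∀ r : ℚ, etaM (3 * f) m b r = etaM (3 * f) m b' r) ∧
    (∀ r : ℚ, etaM (3 * f) m b (r + 1) = etaM (3 * f) m b r ∧
      etaM (3 * f) m b (r + 1 / 3) = zet 3 ^ (NI m * NI b) * etaM (3 * f) m b r) ∧
    (∀ z : ℂ, (starRingEnd ℂ) (ThM (3 * f) m b z) =
      ThM (3 * f) (cjI m) (cjI b) (-(starRingEnd ℂ) z)) ∧
    ∀ c : Gal(Om/ℚ), (∀ x : Om, io (c x) = (starRingEnd ℂ) (io x)) → ∀ r : ℚ,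
      r.den.Coprime (NI m) → c (etaM (3 * f) m b r) = etaM (3 * f) (cjI m) (cjI b) (-r)

/-- Holomorphy; the `q`-expansion; the finite sets `vN`; the exponents are prime to `3`; the coefficients are divisible by
`3` at the primes above `3`. -/
def S_C7 : Prop :=
  ∀ (n t : ℕ) [Ine3 n t] (f : ℕ) (m b : Ideal (OO n t)), FM f m → FB f b →
    DifferentiableOn ℂ (ThM (3 * f) m b) {z | 0 < z.im} ∧
    (∀ (j : ℕ) (v : ℂ), v ∈ vN (3 * f) (m * b) j ↔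
      v - 1 / (3 * f : ℕ) ∈ Lam (m * b) ∧ ((3 * f : ℕ) : ℝ) ^ 2 * NI (m * b) * ‖v‖ ^ 2 = j) ∧
    (∀ j : ℕ, j % 3 ≠ (NI m * NI b) % 3 → vN (3 * f) (m * b) j = ∅) ∧
    (∃ C : ℝ, ∀ j : ℕ, ‖cM (3 * f) m b j‖ ≤ C * (j + 1) ^ 2) ∧
    (∀ j : ℕ, io (ofC (cM (3 * f) m b j)) = cM (3 * f) m b j ∧
      ∀ P : Ideal ZZ, Ab3 P → TP P 3 (ofC (cM (3 * f) m b j))) ∧
    ∀ z : ℂ, 0 < z.im → HasSum (fun j : ℕ => cM (3 * f) m b j / fr b * ex (j * z)) (ThM (3 * f) m b z)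

/-- The Galois action on the values. -/
def S_C8 : Prop :=
  ∀ (n t : ℕ) [Ine3 n t] (f : ℕ) (m b : Ideal (OO n t)), FM f m → FB f b → ∀ r : ℚ,
    r.den.Coprime (NI m) → ∀ τ ∈ GK n t, ∀ a : Ideal (OO n t), Psi τ (3 * f) a →
      τ (etaM (3 * f) m b r) = etaM (3 * f) m (a * b) r

/-- **The hidden symmetry**: the action of `(1 0; M 1)`, and the relation of the three translates (`E(r + 3) = E(r)` by
`S_C6`). -/
def S_C9 : Prop :=
  ∀ (n t : ℕ) [Ine3 n t] (f M : ℕ) (m b : Ideal (OO n t)), FM f m → FB f b → IsLv f m {b} M →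
    ∀ (P : Ideal ZZ), Ab3 P → ∀ r : ℚ, r.den.Coprime M → (M : ℚ) * r + 1 ≠ 0 ∧
      (∀ k : ℕ, 1 ≤ k → etE P f k m b r + etE P f k m b (r + 1) + etE P f k m b (r + 2) = 0) ∧
      (∀ k : ℕ, (k = 1 ∨ k = 3) →
        etE P f k m b (r / (M * r + 1)) - etE P f k m b 0 =
          (-1 + 3 * kH n t P k) / 2 * (etE P f k m b r - etE P f k m b 0) +
          3 * kH n t P k * (etE P f k m b (r + 1) - etE P f k m b 1) ∧
        etE P f k m b (r / (M * r + 1) + 1) - etE P f k m b 1 =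
          (-1 / (4 * kH n t P k) - 3 * kH n t P k / 4) * (etE P f k m b r - etE P f k m b 0) +
          (-1 / 2 - 3 * kH n t P k / 2) * (etE P f k m b (r + 1) - etE P f k m b 1)) ∧
      (etE P f 2 m b (r / (M * r + 1)) - etE P f 2 m b 0 =
          etE P f 2 m b (r - 1) - etE P f 2 m b (-1) ∧
        etE P f 2 m b (r / (M * r + 1) + 1) - etE P f 2 m b 1 =
          etE P f 2 m b r - etE P f 2 m b 0)

/-- The constant of the hidden symmetry. -/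
def S_kH : Prop :=
  ∀ (n t : ℕ) [Ine3 n t] (P : Ideal ZZ), Ab3 P → ∀ k : ℕ, (k = 1 ∨ k = 3) →
    kH n t P k ≠ 0 ∧ VP P (kH n t P k) ∧ MP P (kH n t P k + 1) ∧
    ∀ σ ∈ P.inertia Gal(Om/ℚ), σ (kH n t P k) = kH n t P k

/-- Integrality at the primes above `3`: `(w8^k/3) E_b(r)` is integral and fixed by the inertia group. -/
def S_C10 : Prop :=
  ∀ (n t : ℕ) [Ine3 n t] (f M : ℕ) (m b : Ideal (OO n t)), FM f m → FB f b → IsLv f m {b} M →
    ∀ (P : Ideal ZZ) (k : ℕ), Ab3 P → 1 ≤ k → k ≤ 8 → ∀ r : ℚ, r.den.Coprime M →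
      VP P (w8 ^ k / 3 * etE P f k m b r) ∧
      (∀ σ ∈ P.inertia Gal(Om/ℚ), σ (w8 ^ k / 3 * etE P f k m b r) = w8 ^ k / 3 * etE P f k m b r)

/-- `y_b(r)` and `(w8^k/3) E_b(r)`: they differ modulo `P` by the unit `(κ(b)/w8)^k`. -/
def S_C11 : Prop :=
  ∀ (n t : ℕ) [Ine3 n t] (P : Ideal ZZ), Ab3 P →
    ∀ (f M k : ℕ) (m b : Ideal (OO n t)), FM f m → FB f b → IsLv f m {b} M →
      (k = 1 ∨ k = 2 ∨ k = 3) → ∀ r : ℚ, r.den.Coprime M →
        UP P (kp b / w8) ∧ VP P (yE f k m b r) ∧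
        MP P (yE f k m b r - (kp b / w8) ^ k * (w8 ^ k / 3 * etE P f k m b r))

/-! ## The input of part V -/

/-- Levels exist. -/
def S_Lw : Prop :=
  ∀ (n t : ℕ) [Ine3 n t] (f : ℕ) (m : Ideal (OO n t)) (R : Finset (Ideal (OO n t))), FM f m → FR f R →
    ∃ M : ℕ, IsLw f m R M

/-- The functions `xs`, `ys`: integrality; modulo `P`: the transformation under `Γ_0(M)`. For odd `k` through the natural
representation of `SL_2(F_3)`, for `k = 2` unipotent. Here `d'` is prime to `3` and congruent to `d` modulo `M`. -/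
def S_V : Prop :=
  ∀ (n t : ℕ) [Ine3 n t] (f M k e : ℕ) (m : Ideal (OO n t)) (R : Finset (Ideal (OO n t))), FM f m → FR f R →
    IsRC f R → IsLw f m R M → ∀ χ : Ideal (OO n t) → Om, IsChi (3 * f) χ →
    ∀ P : Ideal ZZ, Ab3 P → (k = 1 ∨ k = 2 ∨ k = 3) → (e = 0 ∨ e = 1) → Ty P f χ (k - 1) →
    (∀ r : ℚ, r.den.Coprime M → VP P (xs P f k e m R χ r)) ∧
    ∀ (a b c d d' : ℤ), G0 M a b c d → ¬ (3 : ℤ) ∣ d' → (M : ℤ) ∣ d' - d →
      UP P (psV k χ d d') ∧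
      (∀ r : ℚ, r.den.Coprime M →
        (c : ℚ) * r + d ≠ 0 ∧ ((a * r + b) / (c * r + d) : ℚ).den.Coprime M) ∧
      ((k = 1 ∨ k = 3) → ∀ r : ℚ, r.den.Coprime M →
        MP P (xs P f k e m R χ ((a * r + b) / (c * r + d)) - xs P f k e m R χ (b / d) -
          psV k χ d d' * (a * (xs P f k e m R χ r - xs P f k e m R χ 0) +
            b * (ys P f k e m R χ r - ys P f k e m R χ 0))) ∧
        MP P (ys P f k e m R χ ((a * r + b) / (c * r + d)) - ys P f k e m R χ (b / d) -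
          psV k χ d d' * (c * (xs P f k e m R χ r - xs P f k e m R χ 0) +
            d * (ys P f k e m R χ r - ys P f k e m R χ 0)))) ∧
      (k = 2 → ∃ j : ℤ, ∀ r : ℚ, r.den.Coprime M →
        MP P (xs P f k e m R χ ((a * r + b) / (c * r + d)) - xs P f k e m R χ (b / d) -
          psV k χ d d' * ((xs P f k e m R χ r - xs P f k e m R χ 0) +
            j * (ys P f k e m R χ r - ys P f k e m R χ 0))) ∧
        MP P (ys P f k e m R χ ((a * r + b) / (c * r + d)) - ys P f k e m R χ (b / d) -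
          psV k χ d d' * (ys P f k e m R χ r - ys P f k e m R χ 0)))

/-! ## The local step, V, F -/

/-- `d` is in the group `D_P ∩ Gal(Om/L'_∞)`. -/
structure IsD (n t f : ℕ) (P : Ideal ZZ) (d : Gal(Om/ℚ)) : Prop where
  stab : ∀ x : ZZ, x ∈ P → d • x ∈ P
  fix : ∀ N : ℕ, 1 ≤ N → ∀ x ∈ Mn n t f N, d x = x

/-- The output of the local step for the function `x` on `ℤ[1/3]`: it is constant modulo `P`, except for `k = e = 1`, where it
is only invariant under the multiplication with `u = 1` modulo `3`. -/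
def Cst (P : Ideal ZZ) (k e : ℕ) (x : ℚ → Om) : Prop :=
  (¬ (k = 1 ∧ e = 1) → ∀ (c : ℤ) (j : ℕ), MP P (x (c / 3 ^ j) - x 0)) ∧
  (k = 1 → e = 1 → ∀ (c u : ℤ) (j : ℕ), (3 : ℤ) ∣ u - 1 → MP P (x (u * c / 3 ^ j) - x (c / 3 ^ j)))

/-- **The local step (LS).** If for infinitely many `N` the sum `∑ χ(c) oN(c)^e κ(u_N(c), d)` vanishes modulo `P` for all `d`
in the decomposition group, then `Cst`. -/
def S_LS : Prop :=
  ∀ (n t : ℕ) [Ine3 n t] (f k e : ℕ) (m : Ideal (OO n t)) (R : Finset (Ideal (OO n t)))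
    (χ : Ideal (OO n t) → Om) (P : Ideal ZZ), FM f m → FR f R → IsRC f R → IsChi (3 * f) χ → Ab3 P →
    (k = 1 ∨ k = 2 ∨ k = 3) → (e = 0 ∨ e = 1) → Ty P f χ (k - 1) →
    (∀ N0 : ℕ, ∃ N : ℕ, N0 ≤ N ∧ ∃ T : Finset (OO n t), IsRep f N T ∧ ∃ D : Finset (Ideal (OO n t)),
      IsDS f N D ∧ ∀ d : Gal(Om/ℚ), IsD n t f P d →
        MP P (∑ c ∈ D, χ c * oN c ^ e * ((kap (uN f N m T c) d).val : Om))) →
    Cst P k e (xs P f k e m R χ)

/-- **Part V.** From `Cst` and `S_V` (`thmV` of `DM/V/V.lean`): `xs` is constant modulo `P` on the points `3 b/d`, for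
`(a b; c d)` in `Γ_1(9 M)`. -/
def S_Vq : Prop :=
  ∀ (n t : ℕ) [Ine3 n t] (f M k e : ℕ) (m : Ideal (OO n t)) (R : Finset (Ideal (OO n t))), FM f m → FR f R →
    IsRC f R → IsLw f m R M → ∀ χ : Ideal (OO n t) → Om, IsChi (3 * f) χ →
    ∀ P : Ideal ZZ, Ab3 P → (k = 1 ∨ k = 2 ∨ k = 3) → (e = 0 ∨ e = 1) → Ty P f χ (k - 1) →
    Cst P k e (xs P f k e m R χ) → ∀ a b c d : ℤ, G0 (9 * M) a b c d → (9 * M : ℤ) ∣ d - 1 →
      MP P (xs P f k e m R χ (3 * b / d) - xs P f k e m R χ 0)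

/-- **Proposition F.** For every character `χ` of type `k - 1`, `k = 1, 2, 3`, both signs, and every smoothing ideal
`m ≠ 1`: the function `xs` modulo `P` is not constant on the points `3 b/d`, `(a b; c d)` in `Γ_1(9 M)`. -/
def S_F : Prop :=
  ∀ (n t : ℕ) [Ine3 n t] (f M k e : ℕ) (m : Ideal (OO n t)) (R : Finset (Ideal (OO n t))), FM f m → FR f R →
    IsRC f R → IsLw f m R M → m ≠ ⊤ → ∀ χ : Ideal (OO n t) → Om, IsChi (3 * f) χ →
    ∀ P : Ideal ZZ, Ab3 P → (k = 1 ∨ k = 2 ∨ k = 3) → (e = 0 ∨ e = 1) → Ty P f χ (k - 1) →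
    ∃ a b c d : ℤ, G0 (9 * M) a b c d ∧ (9 * M : ℤ) ∣ d - 1 ∧
      ¬ MP P (xs P f k e m R χ (3 * b / d) - xs P f k e m R χ 0)

end Pool.Agent.DM
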