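import Pool.Agent.Lib.DN.Iface
import Pool.Agent.Lib.DT.Defs

/-!
# Theorem DM (`p = 3`, `3` not split in `K`): definitions (author helper66)

`K` imaginary quadratic, `O = ℤ[w]`, the ring and the global theory (lattices `Lam b`, `Psi`, `Ray`, `FixI`, `℘`) are those of
`DN/Defs.lean` (`15 ∣ N`). `Nsp n t`: `3` does not split; `Ine3 n t`: `3` is inert. NEW: a second framing, by the point
`1/4`, which has good reduction at all primes not above `2`. In the namespace `DM` the names `fr`, `XC`, `WC`, `xO`, `vO`,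
`rO`, `gC`, `gO`, `ThM`, `hM`, `etaM`, `zt`, `Ty`, `tm`, `etE`, `xs`, `IsChi`, `Hf`, `HN`, `HP`, `HPN`, `Lf`, `Ln`, `Mf`, `Mn`, `Theta`, `IsRep`,
`uN`, `IK` are the ones of this file (they shadow those of `DN`; write `DN.xO` for the others).

For `b` prime to `2`: `fr b = ℘'(1/4)/(℘(1/4) - ℘(1/2))` (weight 1), `X = (℘(z) - ℘(1/2))/fr²`, `W = ℘'(z)/fr³`,
`c = X(1/4) = W(1/4)`, `W² = 4 X³ + (1 - 8 c) X² + 4 c² X`. The discriminant is `c⁴ (1 - 16 c)` (up to units above `3`).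

All moduli are natural numbers. `f` is divisible by `20` and prime to `3`; the conductor is `3 f`.
-/

set_option autoImplicit false

open scoped Pointwise Topology
open Filter

noncomputable section

namespace Pool.Agent.DM

open Pool.Agent.MuZ Pool.Agent.FW NumberField
open Pool.Agent.DI (io ofC io_inj exists_io io_ofC ofC_io VP MP UP TP ex)
open Pool.Agent.DN
open Pool.Agent.DT (kap cbr)

/-- `3` does not split. -/
class Nsp (n t : ℕ) : Prop extends SqN n t where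
  nsp : Dk n t % 3 ≠ 2

/-- `3` is inert. -/
class Ine3 (n t : ℕ) : Prop extends Nsp n t where
  one : Dk n t % 3 = 1

variable {n t : ℕ}

/-! ## The framing by the point `1/4` -/

/-- The framing, of weight 1: `℘'(1/4)/(℘(1/4) - ℘(1/2))`, for `b` prime to `2`. -/
def fr (b : Ideal (OO n t)) : ℂ := by
  classical
  exact if b ≠ ⊥ ∧ PrI b 2 then wdC b (1 / 4) / (wpC b (1 / 4) - wpC b (1 / 2)) else 0

/-- The coordinate `X = (℘(z) - ℘(1/2))/fr²`. -/
def XC (b : Ideal (OO n t)) (z : ℂ) : ℂ := (wpC b z - wpC b (1 / 2)) / fr b ^ 2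

/-- The coordinate `W = ℘'(z)/fr³`. -/
def WC (b : Ideal (OO n t)) (z : ℂ) : ℂ := wdC b z / fr b ^ 3

/-- The parameter `c = X(1/4) = W(1/4)`. -/
def cC (b : Ideal (OO n t)) : ℂ := XC b (1 / 4)

/-- The algebraic number `X(z)`. -/
def xO (b : Ideal (OO n t)) (z : ℂ) : Om := ofC (XC b z)

/-- The algebraic number `W(z)`. -/
def vO (b : Ideal (OO n t)) (z : ℂ) : Om := ofC (WC b z)

/-- The algebraic number `c`. -/
def cO (b : Ideal (OO n t)) : Om := ofC (cC b)

/-- The algebraic number `fr(b')/fr(b)`. -/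
def rO (b b' : Ideal (OO n t)) : Om := ofC (fr b' / fr b)

/-- `P` is a prime above `3`. -/
def Ab3 (P : Ideal ZZ) : Prop := Npr P ∧ MP P 3

/-- The kernel of reduction of `ℂ / Lam b` (model `X`), used for the primes not above `2`. -/
def IK (Q : Ideal ZZ) (b : Ideal (OO n t)) (z : ℂ) : Prop :=
  Tor n t z ∧ (z ∈ Lam b ∨ ¬ VP Q (xO b z))

/-- The smoothed function `g(b, z) = (K(z; Lam (m b)) - N m K(z; Lam b))/fr(b)`. -/
def gC (m b : Ideal (OO n t)) (z : ℂ) : ℂ := (KC (m * b) z - NI m * KC b z) / fr b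

/-- The algebraic number `g(b, z)`. -/
def gO (m b : Ideal (OO n t)) (z : ℂ) : Om := ofC (gC m b z)

/-! ## Conditions -/

/-- The conditions on `f`. -/
structure Fok (f : ℕ) : Prop where
  pos : 0 < f
  dvd : 20 ∣ f
  cop : f.Coprime 3

/-- The conditions on `b` (both framings are defined, `b` is prime to `P`). -/
structure G30 (b : Ideal (OO n t)) : Prop where
  ne : b ≠ ⊥
  cop : PrI b 30

/-- The conditions on `f` and `m`. -/
structure FM (f : ℕ) (m : Ideal (OO n t)) : Prop extends Fok f where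
  ne : m ≠ ⊥
  prm : PrI m (3 * f)

/-- The conditions on `b`. -/
structure FB (f : ℕ) (b : Ideal (OO n t)) : Prop where
  ne : b ≠ ⊥
  prm : PrI b (3 * f)

/-- The conditions on the set `R`. -/
def FR (f : ℕ) (R : Finset (Ideal (OO n t))) : Prop := ∀ b ∈ R, FB f b

/-! ## Theta series (`F` is the modulus; it will be `3 f`) -/

/-- The smoothed theta series (`Tc` is `DN.Tc`). -/
def ThM (F : ℕ) (m b : Ideal (OO n t)) (z : ℂ) : ℂ :=
  (Tc F (m * b) 1 z - NI m * Tc F b 1 (NI m * z)) / fr b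

/-- `lim ThM(r + i y)`. -/
def hM (F : ℕ) (m b : Ideal (OO n t)) (r : ℚ) : ℂ :=
  limUnder (𝓝[>] (0 : ℝ)) (fun y => ThM F m b (r + y * Complex.I))

/-- The algebraic number `hM`. -/
def etaM (F : ℕ) (m b : Ideal (OO n t)) (r : ℚ) : Om := ofC (hM F m b r)

/-- A character of order prime to `3` of the ray class group modulo `N`, zero outside of the ideals prime to `N`. -/
structure IsChi (N : ℕ) (χ : Ideal (OO n t) → Om) : Prop where
  zero : ∀ b : Ideal (OO n t), b = ⊥ ∨ ¬ PrI b N → χ b = 0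
  ray : ∀ b b' : Ideal (OO n t), b ≠ ⊥ → b' ≠ ⊥ → PrI b N → PrI b' N → Ray N b b' → χ b = χ b'
  mul : ∀ a b : Ideal (OO n t), χ (a * b) = χ a * χ b
  cop : ∃ m : ℕ, m.Coprime 3 ∧ ∀ b : Ideal (OO n t), b ≠ ⊥ → PrI b N → χ b ^ m = 1

/-- The character `b ↦ (N b / 3)`, `± 1` for `b` prime to `3`. -/
def oN (b : Ideal (OO n t)) : Om := if NI b % 3 = 1 then 1 else if NI b % 3 = 2 then -1 else 0

/-! ## The tame part at `3` (the inert case) -/

/-- An eighth root of `3`. -/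
def w8 : Om := by
  classical
  exact if h : ∃ y : Om, y ^ 8 = 3 then h.choose else 0

/-- The eighth root of unity congruent to `v` modulo `P` (`v` prime to `3`); `0` if there is none. -/
def zt (P : Ideal ZZ) (v : OO n t) : Om := by
  classical
  exact if h : ∃ y : Om, y ^ 8 = 1 ∧ MP P (y - toO v) then h.choose else 0

/-- The type of `χ` at `P`: `χ((v)) ≡ v^j` modulo `P` for the `v` prime to `3`, congruent to `1` modulo `f`. -/
def Ty (P : Ideal ZZ) (f : ℕ) (χ : Ideal (OO n t) → Om) (j : ℕ) : Prop :=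
  ∀ v : OO n t, (f : OO n t) ∣ v - 1 → Cop v 3 → MP P (χ (sp v) - toO v ^ j)

/-- An element congruent to `1` modulo `f` and to `i + j w` modulo `3` (`f` prime to `3`). -/
def tmv (n t f i j : ℕ) : OO n t := ⟨1 + (f : ℤ) ^ 2 * ((i : ℤ) - 1), (f : ℤ) ^ 2 * j⟩

open Classical in
/-- A system of representatives modulo `3 f` of the `v = 1` modulo `f` which are prime to `3`. -/
def tm (n t f : ℕ) : Finset (OO n t) :=
  ((Finset.range 3 ×ˢ Finset.range 3).image fun p => tmv n t f p.1 p.2).filter fun v => Cop v 3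

/-- `E_b(r) = ∑ zt(α)^k η_(α b)(r/3)`, the sum over `α ∈ tm f`, `η` of modulus `3 f`; `k ∈ {1, 2, 3}`. -/
def etE (P : Ideal ZZ) (f k : ℕ) (m b : Ideal (OO n t)) (r : ℚ) : Om :=
  ∑ α ∈ tm n t f, zt P α ^ k * etaM (3 * f) m (sp α * b) (r / 3)

/-- `w(r) = (w8^k/3) ∑ χ(b) (fr(b)/fr(1)) E_b(r)`, the sum over `R`, a system of representatives of the ray class group
modulo `f`, of ideals prime to `3 f`; `χ` of conductor dividing `3 f` and of type `k - 1`. -/
def xw (P : Ideal ZZ) (f k : ℕ) (m : Ideal (OO n t)) (R : Finset (Ideal (OO n t)))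
    (χ : Ideal (OO n t) → Om) (r : ℚ) : Om :=
  w8 ^ k / 3 * ∑ b ∈ R, χ b * rO ⊤ b * etE P f k m b r

/-- `x(r) = w(r) + (-1)^e w(-r)`. -/
def xs (P : Ideal ZZ) (f k e : ℕ) (m : Ideal (OO n t)) (R : Finset (Ideal (OO n t)))
    (χ : Ideal (OO n t) → Om) (r : ℚ) : Om :=
  xw P f k m R χ r + (-1) ^ e * xw P f k m R χ (-r)

/-- `y(r) = x(r + 1) - x(r)`. -/
def ys (P : Ideal ZZ) (f k e : ℕ) (m : Ideal (OO n t)) (R : Finset (Ideal (OO n t)))
    (χ : Ideal (OO n t) → Om) (r : ℚ) : Om :=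
  xs P f k e m R χ (r + 1) - xs P f k e m R χ r

/-! ## Fields (`FixI`, `Psi` of `DN/Defs.lean`; `15` divides `3 f`) -/

/-- `v` is in `H_f`: the 3-primary part of `(O/3f)^*`. -/
def Hf (f : ℕ) (v : OO n t) : Prop :=
  Cop v (3 * f) ∧ ∃ j : ℕ, ((3 * f : ℕ) : OO n t) ∣ v ^ 3 ^ j - 1

/-- `v` is in `H_N`: in `H_f`, and the norm is `1` modulo `3 ^ N`. -/
def HN (f N : ℕ) (v : OO n t) : Prop := Hf f v ∧ (3 : ℤ) ^ N ∣ Nm v - 1

/-- The 3-primary part of the ray class group modulo `3 f`. -/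
def H3 (f : ℕ) (a : Ideal (OO n t)) : Prop := ∃ j : ℕ, Ray (3 * f) (a ^ 3 ^ j) ⊤

/-- The classes in `H3 f` whose norm is `1` modulo `3 ^ N`. -/
def H3N (f N : ℕ) (a : Ideal (OO n t)) : Prop := H3 f a ∧ (3 : ℤ) ^ N ∣ (NI a : ℤ) - 1

/-- The classes of the principal ideals `(v)`, `v` in `H_f`. -/
def HP (f : ℕ) (a : Ideal (OO n t)) : Prop :=
  ∃ v : OO n t, v ≠ 0 ∧ Hf f v ∧ Ray (3 * f) a (sp v)

/-- The classes of the principal ideals `(v)`, `v` in `H_N` (`1 ≤ N`). -/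
def HPN (f N : ℕ) (a : Ideal (OO n t)) : Prop :=
  ∃ v : OO n t, v ≠ 0 ∧ HN f N v ∧ Ray (f * 3 ^ N) a (sp v)

/-- The field `L` for `f`: the maximal subfield of degree prime to `3` over `K` of the ray class field modulo `3 f`. -/
def Lf (n t f : ℕ) : IntermediateField ℚ Om := FixI (3 * f) (H3 (n := n) (t := t) f)

/-- The field `L_N = L(μ_(3^N))`, `1 ≤ N`. -/
def Ln (n t f N : ℕ) : IntermediateField ℚ Om := FixI (f * 3 ^ N) (H3N (n := n) (t := t) f N)

/-- The field `L'` for `f`; it contains the Hilbert class field. -/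
def Mf (n t f : ℕ) : IntermediateField ℚ Om := FixI (3 * f) (HP (n := n) (t := t) f)

/-- The field `L'_N = L'(μ_(3^N))`, `1 ≤ N`. -/
def Mn (n t f N : ℕ) : IntermediateField ℚ Om := FixI (f * 3 ^ N) (HPN (n := n) (t := t) f N)

/-- The ray class field modulo `N`, `N = f` or `N = 3 f`, as a field of the level `3 f`. -/
def Kf (n t f N : ℕ) : IntermediateField ℚ Om :=
  FixI (3 * f) (fun a : Ideal (OO n t) => Ray N a ⊤)

/-! ## Elliptic units -/

/-- `∏ (℘(u) - ℘(2u))/(℘(z) - ℘(u))`, the product over `(E[m] - 0)/±1` (`m` prime to `6`). -/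
def ThC (m b : Ideal (OO n t)) (z : ℂ) : ℂ :=
  ∏ u ∈ hs m b, (wpC b u - wpC b (2 * u)) / (wpC b z - wpC b u)

/-- The function `Θ_m(b, z)`. -/
def Theta (m b : Ideal (OO n t)) (z : ℂ) : Om := ofC (ThC m b z)

/-- A set of representatives of `H_N` modulo the units of `O` and modulo `f 3^N` (for `K = ℚ(√-3)` the cube roots of
unity lie in `H_N`; otherwise the only unit in `H_N` is `1`). -/
structure IsRep (f N : ℕ) (T : Finset (OO n t)) : Prop where
  mem : ∀ h ∈ T, HN f N h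
  ex : ∀ v : OO n t, HN f N v → ∃ h ∈ T, ∃ e : OO n t, Nm e = 1 ∧
    ((f * 3 ^ N : ℕ) : OO n t) ∣ v - e * h
  uni : ∀ h ∈ T, ∀ h' ∈ T, ∀ e : OO n t, Nm e = 1 → ((f * 3 ^ N : ℕ) : OO n t) ∣ h - e * h' → h = h'

/-- The elliptic unit `u'_N(b)`. -/
def uN (f N : ℕ) (m : Ideal (OO n t)) (T : Finset (OO n t)) (b : Ideal (OO n t)) : Om :=
  ∏ h ∈ T, Theta m b (toC h / (f * 3 ^ N : ℕ))

/-! ## The theorem -/

/-- **Theorem DM (inert case).** -/
def ThmDM : Prop :=
  ∀ (n t : ℕ) [Ine3 n t] (F : IntermediateField ℚ Om), FiniteDimensional ℚ F → F ≤ Wf n t →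
    XFinGen 3 (cyc 3 F)

end Pool.Agent.DM
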