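import Pool.Agent.Lib.DM.Iface

/-!
# Theorem DM: outputs of Part G, Part H, Part I (author helper66; text of `DT/IfaceG.lean` with integral moduli)

`S_GR`, `S_GM`, `S_G3`, `S_G`: Part G (used by H and I). `S_H`: Part H (Thaine's argument for `p = 3`), used by Part I. `S_I`:
output of Part I for the fields `L`. `f` is divisible by `20` and prime to `3` (`Fok f`); the classes in `HP f`, `H3 f`, `Lf`, `Mf` are
modulo `3 f`, those in `HPN f N`, `Mn n t f N` modulo `f 3 ^ N`, `1 ≤ N`. Nothing is proved here.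
-/

set_option autoImplicit false

open scoped Pointwise Topology nonZeroDivisors
open Filter

noncomputable section

namespace Pool.Agent.DM

open Pool.Agent.MuZ Pool.Agent.FW NumberField IsDedekindDomain
open Pool.Agent.DI (io ofC io_inj exists_io io_ofC ofC_io VP MP UP TP ex)
open Pool.Agent.DN
open Pool.Agent.DT (kap cbr)

/-- A system of representatives `c` of `Cl(3 f) / H_f`, `N c = ± 1` modulo `3 ^ N` (`H_f` is the group of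
the classes of the principal ideals `(v)`, `v` in `H_f`). -/
structure IsDS {n t : ℕ} (f N : ℕ) (D : Finset (Ideal (OO n t))) : Prop where
  mem : ∀ c ∈ D, c ≠ ⊥ ∧ PrI c (3 * f) ∧
    ((3 : ℤ) ^ N ∣ (NI c : ℤ) - 1 ∨ (3 : ℤ) ^ N ∣ (NI c : ℤ) + 1)
  ex : ∀ b : Ideal (OO n t), b ≠ ⊥ → PrI b (3 * f) →
    ∃ c ∈ D, ∃ a : Ideal (OO n t), HP f a ∧ Ray (3 * f) b (a * c)
  uni : ∀ c ∈ D, ∀ c' ∈ D, (∃ a : Ideal (OO n t), HP f a ∧ Ray (3 * f) c' (a * c)) → c = c'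

/-- Representatives exist. -/
def S_GR : Prop :=
  ∀ (n t : ℕ) [Nsp n t] (f N : ℕ), Fok f → 1 ≤ N →
    (∃ T : Finset (OO n t), IsRep f N T) ∧ ∃ D : Finset (Ideal (OO n t)), IsDS f N D

/-- The groups `HP`, `HPN`; the fields `L'`, `L'_N`, their Galois groups. -/
def S_GM : Prop :=
  ∀ (n t : ℕ) [Nsp n t] (f : ℕ), Fok f →
    (HP f (⊤ : Ideal (OO n t)) ∧ (∀ a : Ideal (OO n t), HP f a → a ≠ ⊥ ∧ PrI a (3 * f)) ∧
      (∀ a a' : Ideal (OO n t), HP f a → Ray (3 * f) a a' → HP f a') ∧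
      ∀ a a' : Ideal (OO n t), HP f a → HP f a' → HP f (a * a')) ∧
    (∀ N : ℕ, 1 ≤ N → HPN f N (⊤ : Ideal (OO n t)) ∧
      (∀ a : Ideal (OO n t), HPN f N a → a ≠ ⊥ ∧ PrI a (f * 3 ^ N)) ∧
      (∀ a a' : Ideal (OO n t), HPN f N a → Ray (f * 3 ^ N) a a' → HPN f N a') ∧
      (∀ a a' : Ideal (OO n t), HPN f N a → HPN f N a' → HPN f N (a * a')) ∧
      ∀ a : Ideal (OO n t), a ≠ ⊥ → PrI a (f * 3 ^ N) → (HPN f N a ↔ HP f a ∧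
        (3 : ℤ) ^ N ∣ (NI a : ℤ) - 1)) ∧
    FiniteDimensional ℚ (Mf n t f) ∧ KQ n t ≤ Mf n t f ∧
    (∀ N : ℕ, 1 ≤ N → FiniteDimensional ℚ (Mn n t f N) ∧ Mf n t f ≤ Mn n t f N ∧
      Mn n t f N ≤ Mn n t f (N + 1)) ∧
    (∀ τ ∈ GK n t, ∀ a : Ideal (OO n t), Psi τ (3 * f) a → ((∀ x ∈ Mf n t f, τ x = x) ↔ HP f a)) ∧
    (∀ (N : ℕ), 1 ≤ N → ∀ τ ∈ GK n t, ∀ a : Ideal (OO n t), Psi τ (f * 3 ^ N) a →
      ((∀ x ∈ Mn n t f N, τ x = x) ↔ HPN f N a)) ∧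
    ∀ (N : ℕ), 1 ≤ N → ∀ ζ : Om, IsPrimitiveRoot ζ (3 ^ N) → ∀ τ : Gal(Om/ℚ),
      (∀ x ∈ Mn n t f N, τ x = x) ↔ (∀ x ∈ Mf n t f, τ x = x) ∧ τ ζ = ζ

/-- **G3.** The elliptic units. The norm relation holds up to the cube of a number in `L'`. -/
def S_G3 : Prop :=
  ∀ (n t : ℕ) [Nsp n t] (f : ℕ) (m : Ideal (OO n t)) (N : ℕ) (T : Finset (OO n t)), FM f m →
    2 ≤ N → IsRep f N T → ∀ b : Ideal (OO n t), b ≠ ⊥ → PrI b (3 * f) →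
      uN f N m T b ∈ Mn n t f N ∧ uN f N m T b ≠ 0 ∧ (∀ Q : Ideal ZZ, Npr Q → UP Q (uN f N m T b)) ∧
      (∀ b' : Ideal (OO n t), Ray (f * 3 ^ N) b b' → uN f N m T b' = uN f N m T b) ∧
      (∀ a : Ideal (OO n t), HPN f N a → uN f N m T (a * b) = uN f N m T b) ∧
      (∀ τ ∈ GK n t, ∀ a : Ideal (OO n t), Psi τ (f * 3 ^ N) a →
        τ (uN f N m T b) = uN f N m T (a * b)) ∧
      (∀ T' : Finset (OO n t), IsRep f N T' → uN f N m T' b = uN f N m T b) ∧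
      ∀ T' : Finset (OO n t), IsRep f (N + 1) T' → ∀ s ∈ GK n t, ∀ a : Ideal (OO n t),
        Psi s (f * 3 ^ (N + 1)) a → HPN f N a → ¬ HPN f (N + 1) a →
          ∃ c ∈ Mf n t f, c ≠ 0 ∧ uN f (N + 1) m T' b * s (uN f (N + 1) m T' b) *
            s (s (uN f (N + 1) m T' b)) = c ^ 3 * uN f N m T b

/-- **Output of Part G** (inert case). For all large `N`. -/
def S_G : Prop :=
  ∀ (n t : ℕ) [Ine3 n t] (f : ℕ) (m : Ideal (OO n t)) (χ : Ideal (OO n t) → Om) (P : Ideal ZZ),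
    FM f m → m ≠ ⊤ → IsChi (3 * f) χ → Ab3 P →
    ∃ N0 : ℕ, 2 ≤ N0 ∧ ∀ N : ℕ, N0 ≤ N → ∀ T : Finset (OO n t), IsRep f N T →
      ∀ D : Finset (Ideal (OO n t)), IsDS f N D →
        ∃ d : Gal(Om/ℚ), (∀ x : ZZ, x ∈ P → d • x ∈ P) ∧
          (∀ N' : ℕ, 1 ≤ N' → ∀ x ∈ Mn n t f N', d x = x) ∧
          ¬ MP P (∑ c ∈ D, χ c * ((kap (uN f N m T c) d).val : Om))

/-! ## Part H -/

/-- **Theorem H** (Thaine's argument for `p = 3`). `Sg` is a system of representatives in `G_K` of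
`Gal(L'_n/K)`, `n = N - 1`. -/
def S_H : Prop :=
  ∀ (n t : ℕ) [Nsp n t] (f : ℕ) (m : Ideal (OO n t)) (N : ℕ) (T : Finset (OO n t)), FM f m →
    2 ≤ N → IsRep f N T → ∀ b : Ideal (OO n t), b ≠ ⊥ → PrI b (3 * f) →
    ∀ g ∈ VV 3 (Loc 3) (Mn n t f N).fixingSubgroup,
    ∀ (P : Ideal ZZ) (d : Gal(Om/ℚ)), Npr P → MP P 3 → (∀ x : ZZ, x ∈ P → d • x ∈ P) →
      d ∈ (Mn n t f N).fixingSubgroup →
    ∀ Sg : Finset Gal(Om/ℚ), (∀ s ∈ Sg, s ∈ GK n t) →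
      (∀ τ ∈ GK n t, ∃ s ∈ Sg, s⁻¹ * τ ∈ (Mn n t f N).fixingSubgroup) →
      (∀ s ∈ Sg, ∀ s' ∈ Sg, s⁻¹ * s' ∈ (Mn n t f N).fixingSubgroup → s = s') →
    ∀ τ ∈ (Mn n t f N).fixingSubgroup,
      ∑ s ∈ Sg, kap (s⁻¹ (uN f N m T b)) d * g (s * τ * s⁻¹) = 0

/-! ## Part I -/

/-- The result for the fields `L` (inert case). -/
def S_I : Prop := ∀ (n t : ℕ) [Ine3 n t] (f : ℕ), Fok f → XFinGen 3 (cyc 3 (Lf n t f))

end Pool.Agent.DM
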