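import Pool.Agent.Lib.DM.Defs
import Pool.Agent.Lib.DS.Iface

/-!
# Theorem DM: the second framing (part B, part R) and part E (interface, author helper28)

Statements only; they are proved in `DM/E/*.lean` (helper28). `[SqN n t]`: all imaginary quadratic fields. The names `fr`, `XC`, `xO`, ..
are those of `DM/Defs.lean` (second framing, by the point `1/4`); `DN.xO`, .. are those of the first framing. `DS.S_R1`, .. are the
statements of `DS/Iface.lean`. Galois statements: `Psi τ N a` (of `DN/Defs.lean`) with `60 ∣ N`; for the levels of DM: `60 ∣ 3 f`, `60 ∣ f 3 ^ N` (`1 ≤ N`).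

* `BC b` (`b` prime to `2`): the second framing over `ℂ`; `S_BC`.
* `XOm b` (`G30 b`): the same over `Om`; `S_XOm`. `S_R1`: algebraicity. `S_Cv`: comparison with the first framing (`sO b = fr b / DN.fr b`).
* `S_E10`: Galois action on `xO`, `vO`, `cO`, `sO`, `rO`, `gO`, `Theta`. `S_Cl`: these depend only on the ray class of `a`.
* `S_Cj`: complex conjugation. `S_HG`: the groups `H3`, `H3N`, `HP`, `HPN`. `S_E9`: the fields are normal over `ℚ`, inclusions.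
* `S_E4a`: inertia at the primes above `3` acts trivially on the torsion prime to `3` (inert case). `S_Tam`: 8th powers of the inertia elements fix `Mf`.
-/

set_option autoImplicit false

open scoped Pointwise Topology nonZeroDivisors
open Filter

noncomputable section

namespace Pool.Agent.DM

open Pool.Agent.MuZ Pool.Agent.FW NumberField IsDedekindDomain
open Pool.Agent.DI (io ofC io_inj exists_io io_ofC ofC_io VP MP UP TP ex)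
open Pool.Agent.DN
open Pool.Agent.DT (kap cbr)

/-- The quotient of the two framings `fr(b)/DN.fr(b)`. -/
def sO {n t : ℕ} (b : Ideal (OO n t)) : Om := ofC (fr b / DN.fr b)

/-! ## The second framing over the complex numbers (part B) -/

/-- The facts of part B for the second framing; `b₂ = 1 - 8 c`, `b₄ = 2 c²`, `b₆ = 0`, `b₈ = - c⁴`. -/
structure BC {n t : ℕ} (b : Ideal (OO n t)) : Prop where
  /-- the marked points -/
  l1 : (1 : ℂ) ∈ Lam b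
  half : (1 / 2 : ℂ) ∉ Lam b
  quar : (1 / 4 : ℂ) ∉ Lam b
  /-- the framing -/
  w42 : wpC b (1 / 4) ≠ wpC b (1 / 2)
  wd4 : wdC b (1 / 4) ≠ 0
  fr0 : fr b ≠ 0
  frd : fr b = wdC b (1 / 4) / (wpC b (1 / 4) - wpC b (1 / 2))
  /-- the parameter -/
  c0 : cC b ≠ 0
  dsc : 16 * cC b ≠ 1
  x2 : XC b (1 / 2) = 0
  w2 : WC b (1 / 2) = 0
  x4 : XC b (1 / 4) = cC b
  w4 : WC b (1 / 4) = cC b
  /-- the invariants -/
  e2 : 12 * wpC b (1 / 2) = fr b ^ 2 * (1 - 8 * cC b)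
  g2 : 12 * (LP b).g₂ = fr b ^ 4 * ((1 - 8 * cC b) ^ 2 - 48 * cC b ^ 2)
  g3 : 216 * (LP b).g₃ = fr b ^ 6 * (72 * (1 - 8 * cC b) * cC b ^ 2 - (1 - 8 * cC b) ^ 3)
  /-- the coordinates -/
  wp : ∀ z : ℂ, wpC b z = fr b ^ 2 * XC b z + wpC b (1 / 2)
  wd : ∀ z : ℂ, wdC b z = fr b ^ 3 * WC b z
  /-- periods, parity -/
  per : ∀ z l : ℂ, l ∈ Lam b → XC b (z + l) = XC b z ∧ WC b (z + l) = WC b z
  neg : ∀ z : ℂ, XC b (-z) = XC b z ∧ WC b (-z) = -WC b z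
  lat : ∀ z ∈ Lam b, 12 * XC b z = 8 * cC b - 1 ∧ WC b z = 0
  inj : ∀ z z' : ℂ, z ∉ Lam b → z' ∉ Lam b → (XC b z = XC b z' ↔ z - z' ∈ Lam b ∨ z + z' ∈ Lam b)
  two : ∀ z : ℂ, z ∉ Lam b → (WC b z = 0 ↔ 2 * z ∈ Lam b)
  /-- the curve -/
  crv : ∀ z : ℂ, z ∉ Lam b →
    WC b z ^ 2 = 4 * XC b z ^ 3 + (1 - 8 * cC b) * XC b z ^ 2 + 4 * cC b ^ 2 * XC b z
  drx : ∀ z : ℂ, z ∉ Lam b → HasDerivAt (XC b) (fr b * WC b z) z
  drw : ∀ z : ℂ, z ∉ Lam b →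
    HasDerivAt (WC b) (fr b * (6 * XC b z ^ 2 + (1 - 8 * cC b) * XC b z + 2 * cC b ^ 2)) z
  /-- the Kummer line -/
  kad : ∀ z z' : ℂ, z ∉ Lam b → z' ∉ Lam b → z + z' ∉ Lam b → z - z' ∉ Lam b →
    (XC b (z + z') + XC b (z - z')) * (XC b z - XC b z') ^ 2 =
      2 * XC b z * XC b z' * (XC b z + XC b z') + (1 - 8 * cC b) * (XC b z * XC b z') +
        2 * cC b ^ 2 * (XC b z + XC b z')
  kml : ∀ z z' : ℂ, z ∉ Lam b → z' ∉ Lam b → z + z' ∉ Lam b → z - z' ∉ Lam b →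
    XC b (z + z') * XC b (z - z') * (XC b z - XC b z') ^ 2 = (XC b z * XC b z' - cC b ^ 2) ^ 2
  ksb : ∀ z z' : ℂ, z ∉ Lam b → z' ∉ Lam b → z + z' ∉ Lam b → z - z' ∉ Lam b →
    (XC b (z + z') - XC b (z - z')) * (XC b z - XC b z') ^ 2 = -(WC b z * WC b z')
  dup : ∀ z : ℂ, 2 * z ∉ Lam b → XC b (2 * z) * WC b z ^ 2 = (XC b z ^ 2 - cC b ^ 2) ^ 2
  /-- translation by the point `1/2` -/
  th : ∀ z : ℂ, z ∉ Lam b → z + 1 / 2 ∉ Lam b → XC b (z + 1 / 2) * XC b z = cC b ^ 2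

/-- Part B for the second framing: all facts; isogenies; homogeneity (elements `1` modulo `4`; all elements prime to `2`);
conjugation; the smoothed function `g`; injectivity. -/
def S_BC : Prop :=
  ∀ (n t : ℕ) [SqN n t] (b : Ideal (OO n t)), b ≠ ⊥ → PrI b 2 → BC b ∧
    (∀ a : Ideal (OO n t), a ≠ ⊥ → PrI a 2 → ∀ R : Finset ℂ, IsSys a b R →
      (∀ z z' : ℂ, z ∉ Lam (a * b) → z' ∉ Lam (a * b) →
        fr (a * b) ^ 2 * (XC (a * b) z - XC (a * b) z') =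
          fr b ^ 2 * ∑ u ∈ R, (XC b (z + u) - XC b (z' + u))) ∧
      ∀ z : ℂ, z ∉ Lam (a * b) → fr (a * b) ^ 3 * WC (a * b) z = fr b ^ 3 * ∑ u ∈ R, WC b (z + u)) ∧
    (∀ α : OO n t, α ≠ 0 → (4 : OO n t) ∣ α - 1 →
      fr (sp α * b) = toC α * fr b ∧ cC (sp α * b) = cC b ∧
      ∀ z : ℂ, XC (sp α * b) z = XC b (toC α * z) ∧ WC (sp α * b) z = WC b (toC α * z)) ∧
    (∀ α : OO n t, α ≠ 0 → Cop α 2 → ∀ z : ℂ,
      fr (sp α * b) ^ 2 * XC (sp α * b) z =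
        (toC α * fr b) ^ 2 * (XC b (toC α * z) - XC b (toC α * (1 / 2))) ∧
      fr (sp α * b) ^ 3 * WC (sp α * b) z = (toC α * fr b) ^ 3 * WC b (toC α * z)) ∧
    ((starRingEnd ℂ) (fr b) = fr (cjI b) ∧ (starRingEnd ℂ) (cC b) = cC (cjI b) ∧
      ∀ z : ℂ, (starRingEnd ℂ) (XC b z) = XC (cjI b) ((starRingEnd ℂ) z) ∧
        (starRingEnd ℂ) (WC b z) = WC (cjI b) ((starRingEnd ℂ) z)) ∧
    ∀ m : Ideal (OO n t), m ≠ ⊥ → PrI b 15 → PrI m 30 → ∀ z : ℂ, z ∉ Lam (m * b) →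
      gC m b z = ∑ u ∈ hs m b, WC b z / (XC b z - XC b u)

/-! ## Algebraicity, comparison with the first framing -/

/-- Algebraicity. -/
def S_R1 : Prop :=
  ∀ (n t : ℕ) [SqN n t],
    (∀ b : Ideal (OO n t), G30 b → io (cO b) = cC b ∧ io (sO b) = fr b / DN.fr b ∧
      (∀ z : ℂ, Tor n t z → io (xO b z) = XC b z ∧ io (vO b z) = WC b z) ∧
      ∀ b' : Ideal (OO n t), G30 b' → io (rO b b') = fr b' / fr b ∧ rO b b' ≠ 0) ∧
    ∀ m b : Ideal (OO n t), m ≠ ⊥ → G30 b → PrI m 30 → ∀ z : ℂ, Tor n t z →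
      (z ∉ Lam (m * b) → io (gO m b z) = gC m b z) ∧ io (Theta m b z) = ThC m b z

/-- Comparison with the first framing. -/
def S_Cv : Prop :=
  ∀ (n t : ℕ) [SqN n t] (b : Ideal (OO n t)), G30 b → sO b ≠ 0 ∧
    DN.xO b (1 / 4) ≠ DN.xO b (1 / 2) ∧ DN.vO b (1 / 4) ≠ 0 ∧
    sO b = DN.vO b (1 / 4) / (DN.xO b (1 / 4) - DN.xO b (1 / 2)) ∧
    (∀ z : ℂ, Tor n t z → xO b z = (DN.xO b z - DN.xO b (1 / 2)) / sO b ^ 2 ∧
      vO b z = DN.vO b z / sO b ^ 3) ∧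
    (∀ z : ℂ, Tor n t z → DN.xO b z = sO b ^ 2 * (xO b z - xO b (1 / 3)) ∧
      DN.vO b z = sO b ^ 3 * vO b z) ∧
    (∀ b' : Ideal (OO n t), G30 b' → rO b b' = DN.rO b b' * sO b' / sO b) ∧
    ∀ m : Ideal (OO n t), m ≠ ⊥ → PrI m 30 →
      (∀ z : ℂ, Tor n t z → z ∉ Lam (m * b) → gO m b z = DN.gO m b z / sO b) ∧
      (∀ z : ℂ, Tor n t z → Theta m b z =
        ∏ u ∈ hs m b, (DN.xO b u - DN.xO b (2 * u)) / (DN.xO b z - DN.xO b u)) ∧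
      ∀ z : ℂ, Tor n t z → Theta m b z =
        ∏ u ∈ hs m b, (xO b u - xO b (2 * u)) / (xO b z - xO b u)

/-- The facts of part B over `Om`, second framing. -/
structure XOm {n t : ℕ} (b : Ideal (OO n t)) : Prop where
  /-- periods -/
  per : ∀ z l : ℂ, l ∈ Lam b → xO b (z + l) = xO b z ∧ vO b (z + l) = vO b z
  /-- periods, second form -/
  cng : ∀ z z' : ℂ, z - z' ∈ Lam b → xO b z = xO b z' ∧ vO b z = vO b z'
  /-- parity -/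
  neg : ∀ z : ℂ, Tor n t z → xO b (-z) = xO b z ∧ vO b (-z) = -vO b z
  /-- even and periodic -/
  cng' : ∀ z z' : ℂ, (z - z' ∈ Lam b ∨ z + z' ∈ Lam b) → xO b z = xO b z'
  /-- lattice points -/
  lat : ∀ z ∈ Lam b, 12 * xO b z = 8 * cO b - 1 ∧ vO b z = 0
  /-- injectivity -/
  inj : ∀ z z' : ℂ, Tor n t z → Tor n t z' → z ∉ Lam b → z' ∉ Lam b → xO b z = xO b z' →
    z - z' ∈ Lam b ∨ z + z' ∈ Lam b
  /-- `c ≠ 0` -/
  c0 : cO b ≠ 0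
  /-- the discriminant -/
  dsc : 16 * cO b ≠ 1
  /-- the marked points -/
  x2 : xO b (1 / 2) = 0
  v2 : vO b (1 / 2) = 0
  x4 : xO b (1 / 4) = cO b
  v4 : vO b (1 / 4) = cO b
  /-- the curve -/
  crv : ∀ z : ℂ, Tor n t z → z ∉ Lam b →
    vO b z ^ 2 = 4 * xO b z ^ 3 + (1 - 8 * cO b) * xO b z ^ 2 + 4 * cO b ^ 2 * xO b z
  /-- points of order two -/
  two : ∀ z : ℂ, Tor n t z → z ∉ Lam b → (vO b z = 0 ↔ 2 * z ∈ Lam b)
  /-- the Kummer line: sum -/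
  kad : ∀ z z' : ℂ, Tor n t z → Tor n t z' → z ∉ Lam b → z' ∉ Lam b → z + z' ∉ Lam b →
    z - z' ∉ Lam b → (xO b (z + z') + xO b (z - z')) * (xO b z - xO b z') ^ 2 =
      2 * xO b z * xO b z' * (xO b z + xO b z') + (1 - 8 * cO b) * (xO b z * xO b z') +
        2 * cO b ^ 2 * (xO b z + xO b z')
  /-- the Kummer line: product -/
  kml : ∀ z z' : ℂ, Tor n t z → Tor n t z' → z ∉ Lam b → z' ∉ Lam b → z + z' ∉ Lam b →
    z - z' ∉ Lam b → xO b (z + z') * xO b (z - z') * (xO b z - xO b z') ^ 2 =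
      (xO b z * xO b z' - cO b ^ 2) ^ 2
  /-- the Kummer line: difference -/
  ksb : ∀ z z' : ℂ, Tor n t z → Tor n t z' → z ∉ Lam b → z' ∉ Lam b → z + z' ∉ Lam b →
    z - z' ∉ Lam b → (xO b (z + z') - xO b (z - z')) * (xO b z - xO b z') ^ 2 =
      -(vO b z * vO b z')
  /-- duplication -/
  dup : ∀ z : ℂ, Tor n t z → 2 * z ∉ Lam b →
    xO b (2 * z) * vO b z ^ 2 = (xO b z ^ 2 - cO b ^ 2) ^ 2
  /-- translation by `1/2` -/
  th : ∀ z : ℂ, Tor n t z → z ∉ Lam b → z + 1 / 2 ∉ Lam b → xO b (z + 1 / 2) * xO b z = cO b ^ 2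
  /-- homogeneity, elements `1` modulo `4`, prime to `30` -/
  hom : ∀ α : OO n t, α ≠ 0 → (4 : OO n t) ∣ α - 1 → Cop α 30 →
    cO (sp α * b) = cO b ∧ rO b (sp α * b) = toO α ∧
      ∀ z : ℂ, xO (sp α * b) z = xO b (toC α * z) ∧ vO (sp α * b) z = vO b (toC α * z)
  /-- homogeneity, elements prime to `30` -/
  hmg : ∀ α : OO n t, α ≠ 0 → Cop α 30 → ∀ z : ℂ, Tor n t z →
    rO b (sp α * b) ^ 2 * xO (sp α * b) z =
      toO α ^ 2 * (xO b (toC α * z) - xO b (toC α * (1 / 2))) ∧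
    rO b (sp α * b) ^ 3 * vO (sp α * b) z = toO α ^ 3 * vO b (toC α * z)
  /-- the quotients of the framings -/
  rne : ∀ c : Ideal (OO n t), G30 c → rO b c ≠ 0
  rr : ∀ c d : Ideal (OO n t), G30 c → G30 d → rO b c * rO c d = rO b d
  /-- isogenies: the sum formulas -/
  sum : ∀ a : Ideal (OO n t), a ≠ ⊥ → PrI a 30 → ∀ R : Finset ℂ, IsSys a b R →
    (∀ z z' : ℂ, Tor n t z → Tor n t z' → z ∉ Lam (a * b) → z' ∉ Lam (a * b) →
      rO b (a * b) ^ 2 * (xO (a * b) z - xO (a * b) z') = ∑ u ∈ R, (xO b (z + u) - xO b (z' + u))) ∧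
    ∀ z : ℂ, Tor n t z → z ∉ Lam (a * b) →
      rO b (a * b) ^ 3 * vO (a * b) z = ∑ u ∈ R, vO b (z + u)
  /-- the smoothed function -/
  gg : ∀ m : Ideal (OO n t), m ≠ ⊥ → PrI m 30 → ∀ z : ℂ, Tor n t z → z ∉ Lam (m * b) →
    gO m b z = ∑ u ∈ hs m b, vO b z / (xO b z - xO b u)

/-- Part B over `Om`, second framing. -/
def S_XOm : Prop := ∀ (n t : ℕ) [SqN n t] (b : Ideal (OO n t)), G30 b → XOm b

/-! ## Part E -/

/-- Galois action. -/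
def S_E10 : Prop :=
  ∀ (n t : ℕ) [SqN n t] (τ : Gal(Om/ℚ)) (N : ℕ) (a : Ideal (OO n t)), 0 < N → 60 ∣ N → Psi τ N a →
    G30 a ∧
    (∀ b : Ideal (OO n t), G30 b → G30 (a * b) ∧ τ (cO b) = cO (a * b) ∧ τ (sO b) = sO (a * b) ∧
      (∀ z : ℂ, (N : ℂ) * z ∈ Lam b → τ (xO b z) = xO (a * b) z ∧ τ (vO b z) = vO (a * b) z) ∧
      ∀ c : Ideal (OO n t), G30 c → τ (rO b c) = rO (a * b) (a * c)) ∧
    ∀ m b : Ideal (OO n t), m ≠ ⊥ → G30 b → PrI m 30 → NI m ∣ N →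
      ∀ z : ℂ, (N : ℂ) * z ∈ Lam b →
      (z ∉ Lam (m * b) → τ (gO m b z) = gO m (a * b) z) ∧
      τ (Theta m b z) = Theta m (a * b) z

/-- The functions depend only on the ray class of `a` modulo `N`. -/
def S_Cl : Prop :=
  ∀ (n t : ℕ) [SqN n t] (N : ℕ) (a a' : Ideal (OO n t)), 0 < N → 60 ∣ N → a ≠ ⊥ → PrI a N →
    Ray N a a' → a' ≠ ⊥ ∧ PrI a' N ∧
    (∀ b : Ideal (OO n t), G30 b → cO (a * b) = cO (a' * b) ∧ sO (a * b) = sO (a' * b) ∧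
      (∀ z : ℂ, (N : ℂ) * z ∈ Lam b → xO (a * b) z = xO (a' * b) z ∧ vO (a * b) z = vO (a' * b) z) ∧
      ∀ c : Ideal (OO n t), G30 c → rO (a * b) (a * c) = rO (a' * b) (a' * c)) ∧
    ∀ m b : Ideal (OO n t), m ≠ ⊥ → G30 b → PrI m 30 → NI m ∣ N →
      ∀ z : ℂ, (N : ℂ) * z ∈ Lam b →
      (z ∉ Lam (m * b) → gO m (a * b) z = gO m (a' * b) z) ∧
      Theta m (a * b) z = Theta m (a' * b) z

/-- Complex conjugation. -/
def S_Cj : Prop :=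
  ∃ c : Gal(Om/ℚ), (∀ x : Om, io (c x) = (starRingEnd ℂ) (io x)) ∧
    ∀ (n t : ℕ) [SqN n t], (∀ v : OO n t, c (toO v) = toO (cjO v)) ∧
    (∀ b : Ideal (OO n t), G30 b → G30 (cjI b) ∧ c (cO b) = cO (cjI b) ∧ c (sO b) = sO (cjI b) ∧
      (∀ z : ℂ, Tor n t z → c (xO b z) = xO (cjI b) ((starRingEnd ℂ) z) ∧
        c (vO b z) = vO (cjI b) ((starRingEnd ℂ) z)) ∧
      ∀ b' : Ideal (OO n t), G30 b' → c (rO b b') = rO (cjI b) (cjI b')) ∧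
    ∀ m b : Ideal (OO n t), m ≠ ⊥ → G30 b → PrI m 30 → ∀ z : ℂ, Tor n t z →
      (z ∉ Lam (m * b) → c (gO m b z) = gO (cjI m) (cjI b) ((starRingEnd ℂ) z)) ∧
      c (Theta m b z) = Theta (cjI m) (cjI b) ((starRingEnd ℂ) z)

/-- The groups `H3 f`, `H3N f N`, `HP f`, `HPN f N` (`f` any positive integer; `HG`: contains `⊤`, prime to the modulus, stable under
`Ray`, products, conjugation). -/
def S_HG : Prop :=
  ∀ (n t : ℕ) [SqN n t] (f : ℕ), 0 < f →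
    Eb.HG (3 * f) (H3 (n := n) (t := t) f) ∧
    (∀ N : ℕ, 1 ≤ N → Eb.HG (f * 3 ^ N) (H3N (n := n) (t := t) f N)) ∧
    Eb.HG (3 * f) (HP (n := n) (t := t) f) ∧
    (∀ N : ℕ, 1 ≤ N → Eb.HG (f * 3 ^ N) (HPN (n := n) (t := t) f N)) ∧
    (∀ a : Ideal (OO n t), HP f a → H3 f a) ∧
    ∀ (N : ℕ) (a : Ideal (OO n t)), 1 ≤ N → HPN f N a → H3N f N a

/-- The fields are normal over `ℚ`, of finite degree, and contain `K`; inclusions. -/
def S_E9 : Prop :=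
  ∀ (n t : ℕ) [SqN n t] (f : ℕ), 0 < f → 5 ∣ f →
    (∀ τ : Gal(Om/ℚ), ∀ x ∈ Mf n t f, τ x ∈ Mf n t f) ∧
    (∀ (N : ℕ) (τ : Gal(Om/ℚ)), 1 ≤ N → ∀ x ∈ Mn n t f N, τ x ∈ Mn n t f N) ∧
    (∀ τ : Gal(Om/ℚ), ∀ x ∈ Lf n t f, τ x ∈ Lf n t f) ∧
    (∀ (N : ℕ) (τ : Gal(Om/ℚ)), 1 ≤ N → ∀ x ∈ Ln n t f N, τ x ∈ Ln n t f N) ∧
    Lf n t f ≤ Mf n t f ∧ (∀ N : ℕ, 1 ≤ N → Ln n t f N ≤ Mn n t f N) ∧
    (FiniteDimensional ℚ (Mf n t f) ∧ KQ n t ≤ Lf n t f) ∧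
    ∀ N : ℕ, 1 ≤ N → FiniteDimensional ℚ (Mn n t f N) ∧ KQ n t ≤ Ln n t f N

/-- Inertia at the primes above `3`: the torsion prime to `3` (the inert case). -/
def S_E4a : Prop :=
  ∀ (n t : ℕ) [Ine3 n t] (P : Ideal ZZ), Ab3 P → ∀ τ ∈ P.inertia Gal(Om/ℚ), τ ∈ GK n t ∧
    ∀ (N N' : ℕ) (a : Ideal (OO n t)), 0 < N → 15 ∣ N → N' ∣ N → N'.Coprime 3 → Psi τ N a →
      Ray N' a ⊤

/-- Tame ramification: 8th powers of the inertia elements at the primes above `3` fix `Mf` (the inert case). -/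
def S_Tam : Prop :=
  ∀ (n t : ℕ) [Ine3 n t] (f : ℕ), 0 < f → 5 ∣ f → f.Coprime 3 → ∀ P : Ideal ZZ, Ab3 P →
    ∀ τ ∈ P.inertia Gal(Om/ℚ), ∀ x ∈ Mf n t f, (τ ^ 8) x = x

end Pool.Agent.DM
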