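import Pool.Agent.Lib.DM.IfaceC
import Pool.Agent.Lib.DM.F4.FH
import Pool.Agent.Lib.DN.IfaceF

/-!
# Theorem DM (inert case): the interface of part F (non-constancy), author helper79

`S_F` is in `IfaceC.lean`; the statements here are the division of part F: `S_Kf`, `S_F1`, `S_Lead`, `S_F2`, `S_Psi`,
`S_FH`. Nothing is proved here.

IDEA. `s = (-1)^e`. `A = N0 ∑ σ_b(β) ThM (3f) m b` (sum over the classes modulo `3 f`), `β` in the ray class field modulo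
`3 f`, `3 β` of valuation `k/8` at the primes above `3` (`β = κ^k β₀/3`, `β₀` in the ray class field modulo `f`). If `xs`
is constant modulo `P` on the points `3 b/d` then for a suitable `β` the periods `α(g)` of `A` are in `O` and
`α(g) + s α(g')` is in `3 O`. Let `C(z) = A(z) - s conj A(- conj z)`: its periods are `α - s conj α'`, in `ℤ + 3 O`; the
coefficients of `fr C` are divisible by `w8^k`, the leading one exactly (for `β` or `w β`). `G(v)³ = y(3 v)`, `y` the tangent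
at `1/3`, `G` is invariant under `v → v + 1/3` (`DM/F/Gt3.lean`): `Ψ = G(C/3)` is a modular function, a quotient of bounded
series; contradiction (3-descent, `DM.F4.fh`). The curve is `y² = x³ + a4 x + a6`, `x = ℘/fr²`, `y = ℘'/(2 fr³)`, lattice `O`.
-/

set_option autoImplicit false

open scoped Pointwise Topology MatrixGroups
open Filter

noncomputable section

namespace Pool.Agent.DM

open Pool.Agent.MuZ Pool.Agent.FW NumberField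
open Pool.Agent.DI (io ofC io_inj exists_io io_ofC ofC_io VP MP UP TP ex)
open Pool.Agent.DN

/-! ## The curve -/

/-- `a4 = -g₂/(4 fr⁴)`, lattice `O`. -/
def a4O (n t : ℕ) : Om :=
  cO (⊤ : Ideal (OO n t)) ^ 2 - (1 - 8 * cO (⊤ : Ideal (OO n t))) ^ 2 / 48

/-- `a6 = -g₃/(4 fr⁶)`, lattice `O`. -/
def a6O (n t : ℕ) : Om :=
  (1 - 8 * cO (⊤ : Ideal (OO n t))) ^ 3 / 864 -
    (1 - 8 * cO (⊤ : Ideal (OO n t))) * cO (⊤ : Ideal (OO n t)) ^ 2 / 12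

/-- `x(1/3) = ℘(1/3)/fr²`. -/
def xtO (n t : ℕ) : Om :=
  xO (⊤ : Ideal (OO n t)) (1 / 3) + (1 - 8 * cO (⊤ : Ideal (OO n t))) / 12

/-- `y(1/3) = ℘'(1/3)/(2 fr³)`. -/
def ytO (n t : ℕ) : Om := vO (⊤ : Ideal (OO n t)) (1 / 3) / 2

/-- The slope of the tangent at `1/3`. -/
def lamO (n t : ℕ) : Om := (3 * xtO n t ^ 2 + a4O n t) / (2 * ytO n t)

/-- The tangent at `1/3` is `y = lam x + nu`. -/
def nuO (n t : ℕ) : Om := ytO n t - lamO n t * xtO n t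

/-! ## The ray class fields modulo `f` and modulo `3 f` -/

/-- `σ b` acts as the ideal `b`. -/
structure IsSig (n t f : ℕ) (σ : Ideal (OO n t) → Gal(Om/ℚ)) : Prop where
  mem : ∀ b : Ideal (OO n t), FB f b → σ b ∈ GK n t
  psi : ∀ b : Ideal (OO n t), FB f b → Psi (σ b) (3 * f) b

/-- Galois theory of `Kf n t f f`, `Kf n t f (3 * f)`; the first one is unramified above `3`. -/
def S_Kf : Prop :=
  ∀ (n t : ℕ) [Ine3 n t] (f : ℕ), Fok f →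
    (∀ N : ℕ, (N = f ∨ N = 3 * f) → FiniteDimensional ℚ (Kf n t f N) ∧ wO n t ∈ Kf n t f N ∧
      (∀ τ ∈ GK n t, ∀ x ∈ Kf n t f N, τ x ∈ Kf n t f N) ∧
      ∀ τ ∈ GK n t, ∀ τ' ∈ GK n t, ∀ a a' : Ideal (OO n t), Psi τ (3 * f) a →
        Psi τ' (3 * f) a' → ((∀ x ∈ Kf n t f N, τ x = τ' x) ↔ Ray N a a')) ∧
    Kf n t f f ≤ Kf n t f (3 * f) ∧ (∃ σ, IsSig n t f σ) ∧
    (∀ x : Om, (∀ τ ∈ GK n t, τ x = x) → x ∈ KQ n t) ∧
    (∀ P : Ideal ZZ, Ab3 P → ∀ τ ∈ P.inertia Gal(Om/ℚ), ∀ x ∈ Kf n t f f, τ x = x) ∧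
    (∀ P : Ideal ZZ, Ab3 P → ∀ τ ∈ GK n t, ∀ τ' ∈ GK n t,
      (∀ x ∈ Kf n t f f, IsIntegral ℤ x → MP P (τ x - τ' x)) → ∀ x ∈ Kf n t f f, τ x = τ' x) ∧
    (∃ c : Gal(Om/ℚ), IsCj c) ∧ ∀ c : Gal(Om/ℚ), IsCj c → c * c = 1 ∧ c (wO n t) = t - wO n t

/-! ## The functions `A`, `C` -/

/-- The function `A(z) = N0 ∑ σ_b(β) ThM (3f) m b z`, the sum over `R`, the classes modulo `3 f`. -/
def AF {n t : ℕ} (f : ℕ) (m : Ideal (OO n t)) (R : Finset (Ideal (OO n t)))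
    (σ : Ideal (OO n t) → Gal(Om/ℚ)) (N0 : ℕ) (β : Om) (z : ℂ) : ℂ :=
  N0 * ∑ b ∈ R, io (σ b β) * ThM (3 * f) m b z

/-- The coefficients of the `q`-expansion of `fr(1) A(z)`, in `Om`. -/
def aF {n t : ℕ} (f : ℕ) (m : Ideal (OO n t)) (R : Finset (Ideal (OO n t)))
    (σ : Ideal (OO n t) → Gal(Om/ℚ)) (N0 : ℕ) (β : Om) (j : ℕ) : Om :=
  N0 * ∑ b ∈ R, σ b β * rO b ⊤ * ofC (cM (3 * f) m b j)

/-- The function `C(z) = A(z) - s conj A(- conj z)`. -/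
def CF {n t : ℕ} (f : ℕ) (s : ℤ) (m : Ideal (OO n t)) (R : Finset (Ideal (OO n t)))
    (σ : Ideal (OO n t) → Gal(Om/ℚ)) (N0 : ℕ) (β : Om) (z : ℂ) : ℂ :=
  AF f m R σ N0 β z - s * (starRingEnd ℂ) (AF f m R σ N0 β (-(starRingEnd ℂ) z))

/-- The coefficients of `fr(1) C(z)`. -/
def cF {n t : ℕ} (f : ℕ) (s : ℤ) (m : Ideal (OO n t)) (R : Finset (Ideal (OO n t)))
    (σ : Ideal (OO n t) → Gal(Om/ℚ)) (c : Gal(Om/ℚ)) (N0 : ℕ) (β : Om) (j : ℕ) : Om :=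
  aF f m R σ N0 β j - s * c (aF f m R σ N0 β j)

/-- The power series `fr(1) C`. -/
def uF {n t : ℕ} (f : ℕ) (s : ℤ) (m : Ideal (OO n t)) (R : Finset (Ideal (OO n t)))
    (σ : Ideal (OO n t) → Gal(Om/ℚ)) (c : Gal(Om/ℚ)) (N0 : ℕ) (β : Om) : PowerSeries Om :=
  PowerSeries.mk (cF f s m R σ c N0 β)

/-- The periods of `A` are in `O`, with `α(g) + s α(g')` in `3 O`, `g' = (a -b; -c d)`. -/
def IsPer {n t : ℕ} (f M : ℕ) (s : ℤ) (m : Ideal (OO n t)) (R : Finset (Ideal (OO n t)))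
    (σ : Ideal (OO n t) → Gal(Om/ℚ)) (N0 : ℕ) (β : Om) : Prop :=
  ∀ a b c d : ℤ, G0 (9 * M) a b c d → (9 * M : ℤ) ∣ d - 1 → ∃ α α' : OO n t,
    (3 : OO n t) ∣ α + s * α' ∧ ∀ z : ℂ, 0 < z.im →
      AF f m R σ N0 β ((a * z + b) / (c * z + d)) = AF f m R σ N0 β z + toC α ∧
      AF f m R σ N0 β ((a * z - b) / (-c * z + d)) = AF f m R σ N0 β z + toC α'

/-- **F1.** If Proposition F is false: there is `β` such that `A = AF f m R2 σ N0 β` has periods `α(g)` in `O`, with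
`α(g) + s α(g')` in `3 O`, and `3 β` has the valuation `k/8` (at all primes above `3`: at least `k/8`). -/
def S_F1 : Prop :=
  ∀ (n t : ℕ) [Ine3 n t] (f M k e : ℕ) (m : Ideal (OO n t)) (R R2 : Finset (Ideal (OO n t))), FM f m →
    FR f R → IsRC f R → IsLv f m R M → FR f R2 → IsRC (3 * f) R2 → IsLv f m R2 M →
    ∀ χ : Ideal (OO n t) → Om, IsChi (3 * f) χ → ∀ P : Ideal ZZ, Ab3 P → (k = 1 ∨ k = 2 ∨ k = 3) →
    Ty P f χ (k - 1) → ∀ σ : Ideal (OO n t) → Gal(Om/ℚ), IsSig n t f σ → ∀ s : ℤ, s = (-1) ^ e →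
    (∀ a b c d : ℤ, G0 (9 * M) a b c d → (9 * M : ℤ) ∣ d - 1 →
      MP P (xs P f k e m R χ (3 * b / d) - xs P f k e m R χ 0)) →
    ∃ (N0 : ℕ) (β : Om), ¬ 3 ∣ N0 ∧ β ∈ Kf n t f (3 * f) ∧
      (∀ Q : Ideal ZZ, Ab3 Q → ∀ τ ∈ GK n t, VP Q (3 * τ β / w8 ^ k)) ∧
      (∀ b1 ∈ R2, Ray (3 * f) (m * b1) ⊤ → UP P (3 * σ b1 β / w8 ^ k)) ∧
      IsPer f M s m R2 σ N0 β

/-- The coefficients of `A`: `a_0 = 0`, divisibility, `a_1`. -/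
def S_Lead : Prop :=
  ∀ (n t : ℕ) [Ine3 n t] (f : ℕ) (m : Ideal (OO n t)) (R : Finset (Ideal (OO n t))), FM f m → FR f R →
    IsRC (3 * f) R → ∀ σ : Ideal (OO n t) → Gal(Om/ℚ), IsSig n t f σ → ∀ (N0 : ℕ) (β : Om),
      β ∈ Kf n t f (3 * f) →
      (∀ j : ℕ, aF f m R σ N0 β j ∈ Kf n t f (3 * f)) ∧ aF f m R σ N0 β 0 = 0 ∧
      (∀ z : ℂ, 0 < z.im → HasSum (fun j : ℕ => io (aF f m R σ N0 β j) * ex z ^ j)
        (fr (⊤ : Ideal (OO n t)) * AF f m R σ N0 β z)) ∧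
      (∀ Q : Ideal ZZ, Ab3 Q → ∀ γ : Om, γ ≠ 0 → (∀ b ∈ R, VP Q (3 * σ b β / γ)) →
        ∀ j : ℕ, VP Q (aF f m R σ N0 β j / γ)) ∧
      (m ≠ ⊤ → ¬ 3 ∣ N0 → ∃ b1 ∈ R, Ray (3 * f) (m * b1) ⊤ ∧ ∃ u : Om,
        aF f m R σ N0 β 1 = u * (3 * σ b1 β) ∧ ∀ Q : Ideal ZZ, Ab3 Q → UP Q u)

/-- **F2** (from `S_Kf`, `S_F1`, `S_Lead`). For `β` or `w β` the leading coefficient of `fr C` has the valuation `k/8`. -/
def S_F2 : Prop :=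
  ∀ (n t : ℕ) [Ine3 n t] (f M k e : ℕ) (m : Ideal (OO n t)) (R R2 : Finset (Ideal (OO n t))), FM f m →
    m ≠ ⊤ → FR f R → IsRC f R → IsLv f m R M → FR f R2 → IsRC (3 * f) R2 → IsLv f m R2 M →
    ∀ χ : Ideal (OO n t) → Om, IsChi (3 * f) χ → ∀ P : Ideal ZZ, Ab3 P → (k = 1 ∨ k = 2 ∨ k = 3) →
    Ty P f χ (k - 1) → ∀ σ : Ideal (OO n t) → Gal(Om/ℚ), IsSig n t f σ → ∀ s : ℤ, s = (-1) ^ e →
    ∀ c : Gal(Om/ℚ), IsCj c →
    (∀ a b c' d : ℤ, G0 (9 * M) a b c' d → (9 * M : ℤ) ∣ d - 1 →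
      MP P (xs P f k e m R χ (3 * b / d) - xs P f k e m R χ 0)) →
    ∃ (N0 : ℕ) (β : Om), β ∈ Kf n t f (3 * f) ∧ (∀ j : ℕ, VP P (cF f s m R2 σ c N0 β j / w8 ^ k)) ∧
      UP P (cF f s m R2 σ c N0 β 1 / w8 ^ k) ∧ IsPer f M s m R2 σ N0 β

/-- **F3.** The function `Ψ`, `Ψ³ = y(C) - lam x(C) - nu`, and its expansion. -/
def S_Psi : Prop :=
  ∀ (n t : ℕ) [Ine3 n t] (f M : ℕ) (m : Ideal (OO n t)) (R : Finset (Ideal (OO n t))), FM f m →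
    FR f R → IsRC (3 * f) R → IsLv f m R M →
    ∀ σ : Ideal (OO n t) → Gal(Om/ℚ), IsSig n t f σ → ∀ c : Gal(Om/ℚ), IsCj c →
    ∀ s : ℤ, (s = 1 ∨ s = -1) →
    ∀ (N0 : ℕ) (β : Om), β ∈ Kf n t f (3 * f) → cF f s m R σ c N0 β 1 ≠ 0 →
    ∃ Ψ : ℂ → ℂ, (∀ z : ℂ, 0 < z.im → MeromorphicAt Ψ z) ∧
      (∀ z z' : ℂ, 0 < z.im → 0 < z'.im → ∀ α α' : OO n t, (3 : OO n t) ∣ α + s * α' →
        AF f m R σ N0 β z' = AF f m R σ N0 β z + toC α →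
        AF f m R σ N0 β (-(starRingEnd ℂ) z') = AF f m R σ N0 β (-(starRingEnd ℂ) z) + toC α' →
        Ψ z' = Ψ z) ∧
      (∀ γ : SL(2, ℤ), ∃ (F : ℂ → ℂ) (Y : ℝ), MeromorphicAt F 0 ∧
        ∀ z : UpperHalfPlane, Y < z.im → Ψ ((γ • z : UpperHalfPlane) : ℂ) =
          F (Complex.exp (2 * Real.pi * Complex.I * (z : ℂ) / ((9 * M : ℕ) : ℂ)))) ∧
      ∃ (T W ψ : PowerSeries Om) (Y : ℝ) (j : ℕ) (L : IntermediateField ℚ Om),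
        FiniteDimensional ℚ L ∧ (∀ i, PowerSeries.coeff i ψ ∈ L) ∧
        _root_.DM.F4.TWr (a4O n t) (a6O n t) (uF f s m R σ c N0 β) T W ∧
        ψ ^ 3 * W = -(PowerSeries.X ^ 3 *
          (1 + PowerSeries.C (lamO n t) * T + PowerSeries.C (nuO n t) * W)) ∧
        ∀ z : ℂ, Y < z.im → HasSum (fun i : ℕ => io (PowerSeries.coeff i ψ) * ex z ^ i)
          (ex z ^ j * Ψ z)

/-- **F4.** The contradiction (from `DM.F4.fh`). -/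
def S_FH : Prop :=
  ∀ (n t : ℕ) [Ine3 n t] (f k : ℕ) (m : Ideal (OO n t)) (R : Finset (Ideal (OO n t))), FM f m →
    FR f R → IsRC (3 * f) R → ∀ P : Ideal ZZ, Ab3 P → (k = 1 ∨ k = 2 ∨ k = 3) →
    ∀ σ : Ideal (OO n t) → Gal(Om/ℚ), IsSig n t f σ → ∀ c : Gal(Om/ℚ), IsCj c →
    ∀ (s : ℤ) (N0 : ℕ) (β : Om), β ∈ Kf n t f (3 * f) →
    (∀ j : ℕ, VP P (cF f s m R σ c N0 β j / w8 ^ k)) →
    UP P (cF f s m R σ c N0 β 1 / w8 ^ k) →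
    ∀ (T W ψ Q1 Q2 : PowerSeries Om),
      _root_.DM.F4.TWr (a4O n t) (a6O n t) (uF f s m R σ c N0 β) T W →
      ψ ^ 3 * W = -(PowerSeries.X ^ 3 *
        (1 + PowerSeries.C (lamO n t) * T + PowerSeries.C (nuO n t) * W)) →
      Q2 ≠ 0 → Q2 * ψ = Q1 → ∀ K' : IntermediateField ℚ Om, FiniteDimensional ℚ K' →
      (∀ i, PowerSeries.coeff i Q1 ∈ K') → (∀ i, PowerSeries.coeff i Q2 ∈ K') →
      (∀ i, VP P (PowerSeries.coeff i Q1)) → (∀ i, VP P (PowerSeries.coeff i Q2)) → False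

end Pool.Agent.DM
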