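import Pool.Agent.Lib.DM.GL.Act
import Pool.Agent.Lib.DM.GL.Cpt3
import Pool.Agent.Lib.DM.GL.Cu
import Pool.Agent.Lib.DM.GL.FixH
import Pool.Agent.Lib.DM.GL.Ga3
import Pool.Agent.Lib.DM.GL.Gen
import Pool.Agent.Lib.DM.GL.Hj
import Pool.Agent.Lib.DM.GL.In
import Pool.Agent.Lib.DM.GL.Iso
import Pool.Agent.Lib.DM.GL.Kud
import Pool.Agent.Lib.DM.GL.LSS
import Pool.Agent.Lib.DM.GL.Mnf
import Pool.Agent.Lib.DM.GL.Odq
import Pool.Agent.Lib.DM.GL.Pi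
import Pool.Agent.Lib.DM.GL.Pnt
import Pool.Agent.Lib.DM.GL.Pz
import Pool.Agent.Lib.DM.GL.Rep
import Pool.Agent.Lib.DM.GL.Res
import Pool.Agent.Lib.DM.GL.Rou
import Pool.Agent.Lib.DM.GL.SitM
import Pool.Agent.Lib.DM.GL.Sum
import Pool.Agent.Lib.DM.GL.Sur
import Pool.Agent.Lib.DM.GL.Tc
import Pool.Agent.Lib.DM.GL.Tht
import Pool.Agent.Lib.DM.GL.TrZ
import Pool.Agent.Lib.DM.GL.Tra
import Pool.Agent.Lib.DM.GL.Trh
import Pool.Agent.Lib.DM.GL.Tru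
import Pool.Agent.Lib.DM.GL.Un4
import Pool.Agent.Lib.DM.GL.Zn
import Pool.Agent.Lib.DM.GL.Zt
import Pool.Agent.Lib.DM.GL.ZtD
import Pool.Agent.Lib.DM.GL.gT1
import Pool.Agent.Lib.DM.GL.gT2
import Pool.Agent.Lib.DM.GC.Abs
import Pool.Agent.Lib.DM.GC.Bt
import Pool.Agent.Lib.DM.GC.ChT
import Pool.Agent.Lib.DM.GC.Cos
import Pool.Agent.Lib.DM.GC.Fou
import Pool.Agent.Lib.DM.GC.Gb
import Pool.Agent.Lib.DM.GC.LSm
import Pool.Agent.Lib.DM.GC.Od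
import Pool.Agent.Lib.DM.GC.RS
import Pool.Agent.Lib.DM.GC.SU
import Pool.Agent.Lib.DM.GC.TrW
import Pool.Agent.Lib.DM.GC.U1
import Pool.Agent.Lib.DM.GC.UAct
import Pool.Agent.Lib.DM.GC.V0
import Pool.Agent.Lib.DL.All
import Pool.Agent.Lib.DM.GC.RBD
import Pool.Agent.Lib.DM.G.SG
import Pool.Agent.Lib.DM.G.AllZ
import Pool.Agent.Lib.DM.D.AllD
import Pool.Agent.Lib.DM.D.Kp
import Pool.Agent.Lib.DM.H3.AllZ
import Pool.Agent.Lib.DM.C.All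
import Pool.Agent.Lib.DM.CV.All
import Pool.Agent.Lib.DM.V.Vq
import Pool.Agent.Lib.DM.F.AllP
import Pool.Agent.Lib.DM.PI.Top
import Pool.Agent.Lib.DM.B.All
import Pool.Agent.Lib.DM.E.BC

/-!
# THEOREM DM: the final theorem

`mDM : ThmDM` (DM/Defs; `p = 3` inert), no hypotheses. The local step: `mLS`.
-/

set_option autoImplicit false

noncomputable section

namespace Pool.Agent.DM

open Pool.Agent.DN (aB1)

theorem mT0 : S_T0 := GL.tZt.1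

theorem mKp : S_Kp := sKp zXOm zR2 zD1 zD2 mT0

theorem mE10 : S_E10 := zE10 DS.zD1

theorem mTam : S_Tam := zTam DS.zD1 zE4a

theorem mC6 : S_C6 := aC6 DS.zR1

theorem mC4 : S_C4 := aC4 DS.zR1

theorem mGLIn : GL.GLIn where
  B7 := aB7
  XOm := zXOm
  R1 := zR1
  D1 := zD1
  D2 := zD2
  D8 := zD8
  D10 := zD10
  E1 := DS.zE1
  E4a := zE4a
  E6 := DS.zE6
  E10 := mE10

theorem mGLInB : GL.GLInB where
  BC := aBC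
  Cv := zCv
  R2 := zR2
  D9 := zD9
  Tam := mTam
  GM := G.zGM
  G3 := G.zG3

theorem mGLOut : GL.GLOut :=
  GL.asmGL mGLIn DL.aOut GL.tIn GL.tAct GL.tRep GL.tPi GL.tSur GL.tHj GL.tSum GL.tGen GL.tFixH GL.tZn GL.tTra

theorem mGTOut : GL.GTOut :=
  GL.asmGT aB7 mKp DL.aOut mGLOut GL.tZt GL.tTc GL.tgT1 GL.tgT2 GL.tPz GL.tTrZ

theorem mGBOut : GL.GBOut :=
  GL.asmGB mGLIn mGLInB DL.aOut mGLOut mGTOut.Zt GL.tRou GL.tOdq GL.tKud GL.tTru GL.tIso GL.tTrh GL.tTht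
    GL.tZtD GL.tPnt GL.tMnf GL.tUn4 GL.tCpt3 GL.tGa3 GL.tCu GL.tSitM GL.tRes (GL.tLSS G.zGM)

/-- **The local step.** -/
theorem mLS : S_LS :=
  (GC.asmC aB7 zR1 zD2 zD9 mC4 (aTm mT0) mGLOut mGTOut mGBOut GC.tRB GC.tRD GC.tBt GC.tOd GC.tV0 GC.tChT
    GC.tGb GC.tRS GC.tCos GC.tSU GC.tU1 GC.tUAct GC.tAbs GC.tFou GC.tTrW GC.tLSm).1

theorem mC8 : S_C8 := sC8 mC4 mC6 DS.zE1 DS.zE6 mE10

theorem mC10 : S_C10 :=
  sC10 mT0 (aTm mT0) mGTOut.T1 mGTOut.T2 aB7 mC4 mC6 zD9 DS.zE6 mE10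

theorem mC11 : S_C11 :=
  sC11 mKp mT0 (aTm mT0) mGTOut.T1 mGTOut.T2 aB7 mC4 mC6 zD9 DS.zE6 mE10

theorem mV : S_V :=
  sV mT0 (aTm mT0) (aC1 DS.zR1) mC6 (aC9 mT0 DS.zR1) (akH mT0) mC10 aB7 zR1 zD2

theorem mVq : S_Vq := Vq.tVq mV

theorem mF : S_F :=
  F.xF (aC2 DS.zR1) (aC3 DS.zR1) mC6 (aC7 DS.zR1) mC8 mC11 (aTm mT0) mKp zR2 zD2 zE4a

theorem mG : S_G := G.aSG mT0 mLS mVq mF sLw

/-- The inputs of Part I. -/
theorem mInG : PI.InG where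
  R1 := DS.zR1
  E1 := DS.zE1
  E6 := DS.zE6
  E7 := DS.zE7
  E8 := DS.zE8
  GR := G.zGR
  GM := G.zGM
  G3 := G.zG3
  H := H3.zH

theorem mI : S_I := PI.sI_of mInG mG

/-- **Theorem DM.** -/
theorem mDM : ThmDM := PI.thmDM_of mInG mG

end Pool.Agent.DM
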